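import Pool.Agent.X55.Itm.Classes
import Pool.Agent.H175R2.Cut
import Pool.Agent.H175R2.Fam
import Pool.Agent.H175R2.Cw

/-!
# The unbounded families
-/

namespace Pool.Agent.X55.Itm

open SimpleGraph Pool.Agent.H175R2

/-- the truncated grid: every vertex of the grid becomes two triangles joined by an edge -/
def famT (n : ℕ) : SimpleGraph (Fin n × Fin n × Fin 6) :=
  SimpleGraph.fromRel (fun x y =>
    (x.1 = y.1 ∧ x.2.1 = y.2.1 ∧ ((x.2.2.val < 3 ∧ y.2.2.val < 3) ∨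
      (3 ≤ x.2.2.val ∧ 3 ≤ y.2.2.val) ∨ (x.2.2.val = 2 ∧ y.2.2.val = 3))) ∨
    (x.1 = y.1 ∧ x.2.1.val + 1 = y.2.1.val ∧ x.2.2.val = 5 ∧ y.2.2.val = 0) ∨
    (x.1.val + 1 = y.1.val ∧ x.2.1 = y.2.1 ∧ x.2.2.val = 4 ∧ y.2.2.val = 1))

lemma famT_adj {n : ℕ} (i j i' j' : Fin n) (s s' : Fin 6) :
    (famT n).Adj (i, j, s) (i', j', s') ↔ ¬ (i.val = i'.val ∧ j.val = j'.val ∧ s.val = s'.val) ∧
      ((i.val = i'.val ∧ j.val = j'.val ∧ ((s.val < 3 ∧ s'.val < 3) ∨ (3 ≤ s.val ∧ 3 ≤ s'.val) ∨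
        (s.val = 2 ∧ s'.val = 3) ∨ (s.val = 3 ∧ s'.val = 2))) ∨
      (i.val = i'.val ∧ j.val + 1 = j'.val ∧ s.val = 5 ∧ s'.val = 0) ∨
      (i.val = i'.val ∧ j'.val + 1 = j.val ∧ s'.val = 5 ∧ s.val = 0) ∨
      (i.val + 1 = i'.val ∧ j.val = j'.val ∧ s.val = 4 ∧ s'.val = 1) ∨
      (i'.val + 1 = i.val ∧ j.val = j'.val ∧ s'.val = 4 ∧ s.val = 1)) := by
  simp only [famT, SimpleGraph.fromRel_adj, ne_eq, Prod.mk.injEq, Fin.ext_iff]
  constructor
  · rintro ⟨h1, h2⟩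
    refine ⟨h1, ?_⟩
    clear h1
    rcases h2 with (⟨h1, h2, h3 | h3 | h3⟩ | h2 | h2) | (⟨h1, h2, h3 | h3 | h3⟩ | h2 | h2) <;> omega
  · rintro ⟨h1, h2⟩
    refine ⟨h1, ?_⟩
    clear h1
    rcases h2 with (⟨h1, h2, h3 | h3 | h3 | h3⟩ | h2 | h2 | h2 | h2) <;> omega

theorem famT_Q4 (n : ℕ) : Q4 (famT n) := by
  refine ⟨Fin n × Fin n × Bool, fun x => (x.1, x.2.1, decide (x.2.2.val < 3)), ?_, ?_⟩
  · rintro ⟨i1, j1, s1⟩ ⟨i2, j2, s2⟩ ⟨i3, j3, s3⟩ ⟨i4, j4, s4⟩ h2 h3 h4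
    simp only [Prod.mk.injEq, decide_eq_decide, Fin.ext_iff] at h2 h3 h4 ⊢
    omega
  · have fib : ∀ a v : Fin n × Fin n × Fin 6,
        ((a.1, a.2.1, decide (a.2.2.val < 3)) : Fin n × Fin n × Bool) =
          (v.1, v.2.1, decide (v.2.2.val < 3)) ↔
          a.1.val = v.1.val ∧ a.2.1.val = v.2.1.val ∧ (a.2.2.val < 3 ↔ v.2.2.val < 3) := by
      intro a v
      simp only [Prod.mk.injEq, decide_eq_decide, Fin.ext_iff]
    have out : ∀ v a b : Fin n × Fin n × Fin 6, (famT n).Adj v a → (famT n).Adj v b →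
        ¬ (a.1.val = v.1.val ∧ a.2.1.val = v.2.1.val ∧ (a.2.2.val < 3 ↔ v.2.2.val < 3)) →
        ¬ (b.1.val = v.1.val ∧ b.2.1.val = v.2.1.val ∧ (b.2.2.val < 3 ↔ v.2.2.val < 3)) →
        a = b := by
      rintro ⟨i1, j1, s1⟩ ⟨i2, j2, s2⟩ ⟨i3, j3, s3⟩ h1 h2 h3 h4
      rw [famT_adj] at h1 h2
      simp only [Prod.mk.injEq, Fin.ext_iff] at h3 h4 ⊢
      replace h1 := h1.2
      replace h2 := h2.2
      rcases h1 with (⟨a1, a2, a3 | a3 | a3 | a3⟩ | h1 | h1 | h1 | h1) <;>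
        rcases h2 with (⟨b1, b2, b3 | b3 | b3 | b3⟩ | h2 | h2 | h2 | h2) <;> omega
    have inn : ∀ v a b : Fin n × Fin n × Fin 6, a ≠ b →
        (a.1.val = v.1.val ∧ a.2.1.val = v.2.1.val ∧ (a.2.2.val < 3 ↔ v.2.2.val < 3)) →
        (b.1.val = v.1.val ∧ b.2.1.val = v.2.1.val ∧ (b.2.2.val < 3 ↔ v.2.2.val < 3)) →
        (famT n).Adj a b := by
      rintro ⟨i1, j1, s1⟩ ⟨i2, j2, s2⟩ ⟨i3, j3, s3⟩ h1 h3 h4
      rw [famT_adj]
      simp only [ne_eq, Prod.mk.injEq, Fin.ext_iff] at h1 h3 h4 ⊢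
      omega
    intro v a b c hab hac hbc ha hb hc
    simp only [fib]
    by_cases h1 : a.1.val = v.1.val ∧ a.2.1.val = v.2.1.val ∧ (a.2.2.val < 3 ↔ v.2.2.val < 3)
    · by_cases h2 : b.1.val = v.1.val ∧ b.2.1.val = v.2.1.val ∧ (b.2.2.val < 3 ↔ v.2.2.val < 3)
      · exact Or.inl ⟨inn v a b hab h1 h2, h1, h2⟩
      · by_cases h3 : c.1.val = v.1.val ∧ c.2.1.val = v.2.1.val ∧ (c.2.2.val < 3 ↔ v.2.2.val < 3)
        · exact Or.inr (Or.inl ⟨inn v a c hac h1 h3, h1, h3⟩)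
        · exact absurd (out v b c hb hc h2 h3) hbc
    · by_cases h2 : b.1.val = v.1.val ∧ b.2.1.val = v.2.1.val ∧ (b.2.2.val < 3 ↔ v.2.2.val < 3)
      · by_cases h3 : c.1.val = v.1.val ∧ c.2.1.val = v.2.1.val ∧ (c.2.2.val < 3 ↔ v.2.2.val < 3)
        · exact Or.inr (Or.inr ⟨inn v b c hbc h2 h3, h2, h3⟩)
        · exact absurd (out v a c ha hc h1 h3) hac
      · exact absurd (out v a b ha hb h1 h2) hab

/-- swapping rows and columns -/
def sw : Fin 6 → Fin 6 := ![1, 0, 2, 3, 5, 4]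

lemma sw_sw (s : Fin 6) : sw (sw s) = s := by
  revert s; decide

def swE (n : ℕ) : (Fin n × Fin n × Fin 6) ≃ (Fin n × Fin n × Fin 6) where
  toFun x := (x.2.1, x.1, sw x.2.2)
  invFun x := (x.2.1, x.1, sw x.2.2)
  left_inv x := by simp [sw_sw]
  right_inv x := by simp [sw_sw]

def swapT (n : ℕ) : famT n ≃g famT n where
  toEquiv := swE n
  map_rel_iff' := by
    rintro ⟨i, j, s⟩ ⟨i', j', s'⟩
    change (famT n).Adj (j, i, sw s) (j', i', sw s') ↔ _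
    rw [famT_adj, famT_adj]
    have k0 : ∀ s s' : Fin 6, (sw s).val = (sw s').val ↔ s.val = s'.val := by decide
    have k1 : ∀ s s' : Fin 6, ((s.val < 3 ∧ s'.val < 3) ∨ (3 ≤ s.val ∧ 3 ≤ s'.val) ∨
        (s.val = 2 ∧ s'.val = 3) ∨ (s.val = 3 ∧ s'.val = 2)) ↔
        (((sw s).val < 3 ∧ (sw s').val < 3) ∨ (3 ≤ (sw s).val ∧ 3 ≤ (sw s').val) ∨
        ((sw s).val = 2 ∧ (sw s').val = 3) ∨ ((sw s).val = 3 ∧ (sw s').val = 2)) := by decide
    have k2 : ∀ s s' : Fin 6, (s.val = 5 ∧ s'.val = 0) ↔ ((sw s).val = 4 ∧ (sw s').val = 1) := by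
      decide
    have k3 : ∀ s s' : Fin 6, (s.val = 4 ∧ s'.val = 1) ↔ ((sw s).val = 5 ∧ (sw s').val = 0) := by
      decide
    have e0 := k0 s s'
    have e1 := k1 s s'
    have e2 := k2 s s'
    have e3 := k3 s s'
    have e4 := k2 s' s
    have e5 := k3 s' s
    clear k0 k1 k2 k3
    constructor
    · rintro ⟨h1, h2⟩
      refine ⟨fun h => h1 ⟨h.2.1, h.1, e0.2 h.2.2⟩, ?_⟩
      rcases h2 with h2 | h2 | h2 | h2 | h2
      · exact Or.inl ⟨h2.2.1, h2.1, e1.2 h2.2.2⟩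
      · exact Or.inr (Or.inr (Or.inr (Or.inl ⟨h2.2.1, h2.1, e3.2 h2.2.2⟩)))
      · exact Or.inr (Or.inr (Or.inr (Or.inr ⟨h2.2.1, h2.1, e5.2 h2.2.2⟩)))
      · exact Or.inr (Or.inl ⟨h2.2.1, h2.1, e2.2 h2.2.2⟩)
      · exact Or.inr (Or.inr (Or.inl ⟨h2.2.1, h2.1, e4.2 h2.2.2⟩))
    · rintro ⟨h1, h2⟩
      refine ⟨fun h => h1 ⟨h.2.1, h.1, e0.1 h.2.2⟩, ?_⟩
      rcases h2 with h2 | h2 | h2 | h2 | h2
      · exact Or.inl ⟨h2.2.1, h2.1, e1.1 h2.2.2⟩
      · exact Or.inr (Or.inr (Or.inr (Or.inl ⟨h2.2.1, h2.1, e2.1 h2.2.2⟩)))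
      · exact Or.inr (Or.inr (Or.inr (Or.inr ⟨h2.2.1, h2.1, e4.1 h2.2.2⟩)))
      · exact Or.inr (Or.inl ⟨h2.2.1, h2.1, e3.1 h2.2.2⟩)
      · exact Or.inr (Or.inr (Or.inl ⟨h2.2.1, h2.1, e5.1 h2.2.2⟩))

open Classical in
/-- mixed rows -/
noncomputable def mixedT {n : ℕ} (A : Set (Fin n × Fin n × Fin 6)) : Finset (Fin n) :=
  Finset.univ.filter (fun i => (∃ x, (i, x) ∈ A) ∧ ∃ x, (i, x) ∉ A)

lemma row_step {n : ℕ} (A : Set (Fin n × Fin n × Fin 6)) (i : Fin n) (hi : i ∈ mixedT A) :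
    ∃ a b : Fin n × Fin 6, (i, a) ∈ A ∧ (i, b) ∉ A ∧ (famT n).Adj (i, a) (i, b) := by
  by_contra hcon
  push Not at hcon
  have hc : ∀ a b : Fin n × Fin 6, (famT n).Adj (i, a) (i, b) → ((i, a) ∈ A ↔ (i, b) ∈ A) := by
    intro a b hab
    constructor
    · intro h
      by_contra h'
      exact hcon a b h h' hab
    · intro h
      by_contra h'
      exact hcon b a h h' hab.symm
  have h1 : ∀ (j : Fin n) (s : ℕ) (hs : s < 6), ((i, j, ⟨s, hs⟩) ∈ A ↔ (i, j, 0) ∈ A) := by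
    intro j s
    induction s with
    | zero => intro _; rfl
    | succ s ih =>
      intro hs
      rw [← ih (by omega)]
      refine (hc (j, ⟨s, by omega⟩) (j, ⟨s + 1, hs⟩) ?_).symm
      rw [famT_adj]
      simp only [true_and]
      omega
  have h2 : ∀ (j : ℕ) (hj : j < n), ((i, ⟨j, hj⟩, (0 : Fin 6)) ∈ A ↔
      (i, ⟨0, by omega⟩, (0 : Fin 6)) ∈ A) := by
    intro j
    induction j with
    | zero => intro _; rfl
    | succ j ih =>
      intro hj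
      rw [← ih (by omega), ← h1 ⟨j, by omega⟩ 5 (by omega)]
      refine (hc (⟨j, by omega⟩, ⟨5, by omega⟩) (⟨j + 1, hj⟩, 0) ?_).symm
      rw [famT_adj]
      simp
  simp only [mixedT, Finset.mem_filter, Finset.mem_univ, true_and] at hi
  obtain ⟨⟨⟨j, s⟩, ha⟩, ⟨j', s'⟩, hb⟩ := hi
  apply hb
  have e1 := h1 j s.1 s.2
  have e2 := h1 j' s'.1 s'.2
  have e3 := h2 j.1 j.2
  have e4 := h2 j'.1 j'.2
  exact e2.2 (e4.2 (e3.1 (e1.1 ha)))

theorem mixedT_le {n k : ℕ} (A : Set (Fin n × Fin n × Fin 6)) (h : Types (famT n) A k) :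
    (mixedT A).card ≤ 2 * k := by
  classical
  obtain ⟨l, hl⟩ := h
  have hch := fun i (hi : i ∈ mixedT A) => row_step A i hi
  choose! a b ha hb hab using hch
  by_contra hcon
  push Not at hcon
  have hcard : (Finset.univ : Finset (Fin k)).card * 2 < (mixedT A).card := by
    simp; omega
  obtain ⟨t, _, ht⟩ := Finset.exists_lt_card_fiber_of_mul_lt_card_of_maps_to
    (f := fun i => l (i, a i)) (s := mixedT A) (t := Finset.univ) (fun _ _ => Finset.mem_univ _) hcard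
  rw [Finset.two_lt_card] at ht
  obtain ⟨x, hx, y, hy, z, hz, hxy, hxz, hyz⟩ := ht
  simp only [Finset.mem_filter] at hx hy hz
  have key : ∀ x y : Fin n, x ∈ mixedT A → y ∈ mixedT A → l (x, a x) = l (y, a y) →
      x.val ≤ y.val + 1 := by
    intro x y hx hy hxy
    have h2 := (hl _ (ha x hx) _ (ha y hy) hxy _ (hb x hx)).1 (hab x hx)
    rw [famT_adj] at h2
    omega
  have k1 := key x y hx.1 hy.1 (hx.2.trans hy.2.symm)
  have k2 := key y x hy.1 hx.1 (hy.2.trans hx.2.symm)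
  have k3 := key x z hx.1 hz.1 (hx.2.trans hz.2.symm)
  have k4 := key z x hz.1 hx.1 (hz.2.trans hx.2.symm)
  have k5 := key y z hy.1 hz.1 (hy.2.trans hz.2.symm)
  have k6 := key z y hz.1 hy.1 (hz.2.trans hy.2.symm)
  have n1 : x.val ≠ y.val := fun h => hxy (Fin.ext h)
  have n2 : x.val ≠ z.val := fun h => hxz (Fin.ext h)
  have n3 : y.val ≠ z.val := fun h => hyz (Fin.ext h)
  omega

/-- if every row meeting `A` is mixed then `A` is small -/
theorem card_le_mixedT {n : ℕ} (A : Set (Fin n × Fin n × Fin 6))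
    (h : ∀ i, (∃ j, (i, j) ∈ A) → i ∈ mixedT A) : A.ncard ≤ (mixedT A).card * (6 * n) := by
  have h1 : A ⊆ ((mixedT A ×ˢ (Finset.univ : Finset (Fin n × Fin 6)) : Finset _) :
      Set (Fin n × Fin n × Fin 6)) := by
    rintro ⟨i, j⟩ hij
    simp only [Finset.coe_product, Finset.coe_univ, Set.mem_prod, Finset.mem_coe, Set.mem_univ,
      and_true]
    exact h i ⟨j, hij⟩
  have h2 := Set.ncard_le_ncard h1 (Finset.finite_toSet _)
  rw [Set.ncard_coe_finset, Finset.card_product] at h2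
  simpa [mul_comm n 6] using h2

theorem mixedT_compl {n : ℕ} (A : Set (Fin n × Fin n × Fin 6)) : mixedT Aᶜ = mixedT A := by
  ext i
  simp only [mixedT, Finset.mem_filter, Finset.mem_univ, true_and, Set.mem_compl_iff, not_not]
  tauto

theorem famT_unbounded (c : ℕ) : ∃ n ≥ 1, ∀ k ≤ c, ¬ CwLE (famT n) k := by
  refine ⟨6 * c + 2, by omega, ?_⟩
  intro k hk hcw
  set n := 6 * c + 2 with hn
  have hcard : (Set.univ : Set (Fin n × Fin n × Fin 6)).ncard = n * (6 * n) := by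
    rw [Set.ncard_univ]; simp [mul_comm n 6]
  obtain ⟨A, hT, h1, h2⟩ := balanced_cut (famT n) k hcw Set.univ (by rw [hcard]; nlinarith)
  rw [Set.inter_univ, hcard] at h1 h2
  have hcompl : A.ncard + Aᶜ.ncard = n * (6 * n) := by
    rw [Set.ncard_add_ncard_compl]; simp [mul_comm n 6]
  have hm := mixedT_le A hT
  have hbig : n ≤ 3 * (mixedT A).card → False := by
    intro h; omega
  by_cases hfull : ∃ i, ∀ j, (i, j) ∈ A
  · by_cases hempty : ∃ i, ∀ j, (i, j) ∉ A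
    · obtain ⟨i, hi⟩ := hfull
      obtain ⟨i', hi'⟩ := hempty
      have hT' : Types (famT n) (swapT n ⁻¹' A) k := Types.iso _ hT
      have hm' := mixedT_le _ hT'
      have : mixedT (swapT n ⁻¹' A) = Finset.univ := by
        ext j
        simp only [mixedT, Finset.mem_filter, Finset.mem_univ, true_and, iff_true]
        exact ⟨⟨(i, 0), hi (j, sw 0)⟩, ⟨(i', 0), hi' (j, sw 0)⟩⟩
      rw [this] at hm'
      simp at hm'
      omega
    · push Not at hempty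
      have h3 : Aᶜ.ncard ≤ (mixedT Aᶜ).card * (6 * n) := by
        apply card_le_mixedT
        rintro i ⟨j, hj⟩
        rw [mixedT_compl]
        simp only [mixedT, Finset.mem_filter, Finset.mem_univ, true_and]
        exact ⟨hempty i, j, hj⟩
      rw [mixedT_compl] at h3
      apply hbig
      have : n * (6 * n) ≤ 3 * ((mixedT A).card * (6 * n)) := by omega
      have : n * (6 * n) ≤ (3 * (mixedT A).card) * (6 * n) := by linarith
      exact Nat.le_of_mul_le_mul_right this (by omega)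
  · push Not at hfull
    have h3 : A.ncard ≤ (mixedT A).card * (6 * n) := by
      apply card_le_mixedT
      rintro i ⟨j, hj⟩
      simp only [mixedT, Finset.mem_filter, Finset.mem_univ, true_and]
      exact ⟨⟨j, hj⟩, hfull i⟩
    apply hbig
    have : n * (6 * n) ≤ (3 * (mixedT A).card) * (6 * n) := by linarith
    exact Nat.le_of_mul_le_mul_right this (by omega)

/-! ### membership of the other families -/

theorem famCobip_Q1 (n : ℕ) : Q1 (famCobip n) := by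
  refine ⟨Set.range Sum.inl, ?_, ?_⟩
  · rintro _ ⟨a, rfl⟩ _ ⟨b, rfl⟩ hab
    rw [famCobip, SimpleGraph.fromRel_adj]
    exact ⟨hab, Or.inl (Or.inl ⟨a, b, rfl, rfl⟩)⟩
  · intro x hx y hy hxy
    rcases x with x | x
    · exact absurd ⟨x, rfl⟩ hx
    rcases y with y | y
    · exact absurd ⟨y, rfl⟩ hy
    rw [famCobip, SimpleGraph.fromRel_adj]
    exact ⟨hxy, Or.inl (Or.inr (Or.inl ⟨x, y, rfl, rfl⟩))⟩

theorem famSplit_Q2 (n : ℕ) : Q2 (famSplit n) := by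
  refine ⟨Set.range Sum.inl, ?_, ?_⟩
  · rintro _ ⟨a, rfl⟩ _ ⟨b, rfl⟩ hab
    rw [famSplit, SimpleGraph.fromRel_adj]
    exact ⟨hab, Or.inl (Or.inl ⟨a, b, rfl, rfl⟩)⟩
  · intro x hx y hy hxy
    rcases x with x | x
    · exact hx ⟨x, rfl⟩
    rcases y with y | y
    · exact hy ⟨y, rfl⟩
    rw [famSplit, SimpleGraph.fromRel_adj] at hxy
    simp at hxy

theorem famTrunc_Q3 (n : ℕ) : Q3 (famTrunc n) := by
  rintro ⟨⟨i, j⟩, hij⟩ S ⟨s0, hs0⟩ hv hcyc
  -- elements of `S`: first coordinate `i`, or equal to `(j, i)`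
  have hadj : ∀ x y : {p : Fin n × Fin n // p.1 ≠ p.2}, (famTrunc n).Adj x y ↔
      x ≠ y ∧ ¬ (x.1.1 = y.1.1 ∨ (x.1.1 = y.1.2 ∧ x.1.2 = y.1.1)) := by
    intro x y
    rw [famTrunc, SimpleGraph.fromRel_adj]
    constructor
    · rintro ⟨h, h' | h'⟩
      · exact ⟨h, h'⟩
      · refine ⟨h, fun h2 => h' ?_⟩
        rcases h2 with h2 | h2
        · exact Or.inl h2.symm
        · exact Or.inr ⟨h2.2.symm, h2.1.symm⟩
    · rintro ⟨h, h'⟩
      exact ⟨h, Or.inl h'⟩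
  have hS : ∀ s ∈ S, s.1.1 = i ∨ (s.1.1 = j ∧ s.1.2 = i) := by
    intro s hs
    obtain ⟨h1, h2⟩ := hv s hs
    rw [hadj, not_and] at h2
    have := not_not.1 (h2 (Ne.symm h1))
    rcases this with h | ⟨h, h'⟩
    · exact Or.inl h.symm
    · exact Or.inr ⟨h'.symm, h.symm⟩
  -- two elements of `S` with first coordinate `i` are not adjacent
  have hi : ∀ s ∈ S, s.1.1 = i → ∀ a ∈ S, (famTrunc n).Adj s a → a.1.1 = j ∧ a.1.2 = i := by
    intro s hs h a ha hadj'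
    rcases hS a ha with h2 | h2
    · rw [hadj] at hadj'
      exact absurd (Or.inl (h.trans h2.symm)) hadj'.2
    · exact h2
  have hall : ∀ s ∈ S, s.1.1 = i → False := by
    intro s hs h
    obtain ⟨a, ha, b, hb, hab, h1, h2⟩ := hcyc s hs
    have e1 := hi s hs h a ha h1
    have e2 := hi s hs h b hb h2
    exact hab (Subtype.ext (Prod.ext (e1.1.trans e2.1.symm) (e1.2.trans e2.2.symm)))
  obtain ⟨a, ha, b, hb, hab, h1, h2⟩ := hcyc s0 hs0
  have e1 := (hS a ha).resolve_left (hall a ha)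
  have e2 := (hS b hb).resolve_left (hall b hb)
  exact hab (Subtype.ext (Prod.ext (e1.1.trans e2.1.symm) (e1.2.trans e2.2.symm)))

lemma exists_cwLE' (V : Type) [Finite V] [Nonempty V] (G : SimpleGraph V) : ∃ k, CwLE G k := by
  have : Fintype V := Fintype.ofFinite V
  have ht : Tame G (Fintype.card V) := ⟨Finset.univ, by simp, fun x hx => by simp at hx⟩
  exact ⟨_, cwLE_of_dt (dt_of_tame ht)⟩

theorem bdd_Q1 {W : Type} {H : SimpleGraph W} (hb : BddItm H) : Q1 H := by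
  refine closed_Q1.of_bdd hb (fun c => ?_) exists_cwLE'
  obtain ⟨n, hn, h⟩ := famCobip_unbounded c 1
  exact ⟨_, inferInstance, ⟨Sum.inl ⟨0, hn⟩⟩, famCobip n, famCobip_Q1 n, h⟩

theorem bdd_Q2 {W : Type} {H : SimpleGraph W} (hb : BddItm H) : Q2 H := by
  refine closed_Q2.of_bdd hb (fun c => ?_) exists_cwLE'
  obtain ⟨n, hn, h⟩ := famSplit_unbounded c 1
  exact ⟨_, inferInstance, ⟨Sum.inl ⟨0, hn⟩⟩, famSplit n, famSplit_Q2 n, h⟩

theorem bdd_Q3 {W : Type} {H : SimpleGraph W} (hb : BddItm H) : Q3 H := by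
  refine closed_Q3.of_bdd hb (fun c => ?_) exists_cwLE'
  obtain ⟨n, hn, h⟩ := famTrunc_unbounded c 2
  exact ⟨_, inferInstance, ⟨⟨(⟨0, by omega⟩, ⟨1, by omega⟩), by simp⟩⟩, famTrunc n, famTrunc_Q3 n, h⟩

theorem bdd_Q4 {W : Type} {H : SimpleGraph W} (hb : BddItm H) : Q4 H := by
  refine closed_Q4.of_bdd hb (fun c => ?_) exists_cwLE'
  obtain ⟨n, hn, h⟩ := famT_unbounded c
  exact ⟨_, inferInstance, ⟨(⟨0, hn⟩, ⟨0, hn⟩, 0)⟩, famT n, famT_Q4 n, h⟩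

end Pool.Agent.X55.Itm
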