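import Pool.Agent.X55.Itm.Classes

/-!
# The finite graphs in all four classes
-/

namespace Pool.Agent.X55.Itm

open SimpleGraph Pool.Agent.H175R2

variable {W : Type} {H : SimpleGraph W}

lemma Q1.no3 (h : Q1 H) {a b c : W} (hab : a ≠ b) (hac : a ≠ c) (hbc : b ≠ c) :
    H.Adj a b ∨ H.Adj a c ∨ H.Adj b c := by
  obtain ⟨A, h1, h2⟩ := h
  by_cases ha : a ∈ A <;> by_cases hb : b ∈ A <;> by_cases hc : c ∈ A
  · exact Or.inl (h1 a ha b hb hab)
  · exact Or.inl (h1 a ha b hb hab)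
  · exact Or.inr (Or.inl (h1 a ha c hc hac))
  · exact Or.inr (Or.inr (h2 b hb c hc hbc))
  · exact Or.inr (Or.inr (h1 b hb c hc hbc))
  · exact Or.inr (Or.inl (h2 a ha c hc hac))
  · exact Or.inl (h2 a ha b hb hab)
  · exact Or.inl (h2 a ha b hb hab)

lemma Q2.no2K2 (h : Q2 H) {a b c d : W} (hac : a ≠ c) (had : a ≠ d) (hbc : b ≠ c)
    (hbd : b ≠ d) (h1 : H.Adj a b) (h2 : H.Adj c d) :
    H.Adj a c ∨ H.Adj a d ∨ H.Adj b c ∨ H.Adj b d := by
  obtain ⟨A, k1, k2⟩ := h
  have e1 : a ∈ A ∨ b ∈ A := by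
    by_contra hcon
    rw [not_or] at hcon
    exact k2 a hcon.1 b hcon.2 h1
  have e2 : c ∈ A ∨ d ∈ A := by
    by_contra hcon
    rw [not_or] at hcon
    exact k2 c hcon.1 d hcon.2 h2
  rcases e1 with e1 | e1 <;> rcases e2 with e2 | e2
  · exact Or.inl (k1 a e1 c e2 hac)
  · exact Or.inr (Or.inl (k1 a e1 d e2 had))
  · exact Or.inr (Or.inr (Or.inl (k1 b e1 c e2 hbc)))
  · exact Or.inr (Or.inr (Or.inr (k1 b e1 d e2 hbd)))

lemma Q2.noC4 (h : Q2 H) {a b c d : W} (hac : a ≠ c) (hbd : b ≠ d) (h1 : H.Adj a b)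
    (h2 : H.Adj b c) (h3 : H.Adj c d) (h4 : H.Adj d a) : H.Adj a c ∨ H.Adj b d := by
  obtain ⟨A, k1, k2⟩ := h
  by_cases ha : a ∈ A
  · by_cases hc : c ∈ A
    · exact Or.inl (k1 a ha c hc hac)
    · have hb : b ∈ A := by
        by_contra hb
        exact k2 b hb c hc h2
      have hd : d ∈ A := by
        by_contra hd
        exact k2 c hc d hd h3
      exact Or.inr (k1 b hb d hd hbd)
  · have hb : b ∈ A := by
      by_contra hb
      exact k2 a ha b hb h1
    have hd : d ∈ A := by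
      by_contra hd
      exact k2 d hd a ha h4
    exact Or.inr (k1 b hb d hd hbd)

lemma Q3.noK3K1 (h : Q3 H) {a b c d : W} (h1 : H.Adj a b) (h2 : H.Adj a c) (h3 : H.Adj b c)
    (hda : d ≠ a) (hdb : d ≠ b) (hdc : d ≠ c) : H.Adj d a ∨ H.Adj d b ∨ H.Adj d c := by
  by_contra hcon
  push Not at hcon
  refine h d {a, b, c} ⟨a, by simp⟩ ?_ ?_
  · rintro s (rfl | rfl | rfl)
    · exact ⟨hda.symm, hcon.1⟩
    · exact ⟨hdb.symm, hcon.2.1⟩
    · exact ⟨hdc.symm, hcon.2.2⟩
  · rintro s (rfl | rfl | rfl)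
    · exact ⟨b, by simp, c, by simp, h3.ne, h1, h2⟩
    · exact ⟨a, by simp, c, by simp, h2.ne, h1.symm, h3⟩
    · exact ⟨a, by simp, b, by simp, h1.ne, h2.symm, h3.symm⟩

/-- at most three neighbours -/
lemma Q4.deg (h : Q4 H) {v a b c d : W} (h1 : H.Adj v a) (h2 : H.Adj v b) (h3 : H.Adj v c)
    (h4 : H.Adj v d) (hab : a ≠ b) (hac : a ≠ c) (had : a ≠ d) (hbc : b ≠ c) (hbd : b ≠ d)
    (hcd : c ≠ d) : False := by
  obtain ⟨T, τ, k1, k2⟩ := h
  have key : ∀ a b c, H.Adj v a → H.Adj v b → H.Adj v c → a ≠ b → a ≠ c → b ≠ c →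
      τ a = τ v → τ b = τ v → τ c = τ v → False := by
    intro a b c ha hb hc hab hac hbc e1 e2 e3
    rcases k1 v a b c e1.symm e2.symm e3.symm with h | h | h | h | h | h
    · exact ha.ne h
    · exact hb.ne h
    · exact hc.ne h
    · exact hab h
    · exact hac h
    · exact hbc h
  have t1 := k2 v a b c hab hac hbc h1 h2 h3
  have t2 := k2 v a b d hab had hbd h1 h2 h4
  have t3 := k2 v a c d hac had hcd h1 h3 h4
  have t4 := k2 v b c d hbc hbd hcd h2 h3 h4
  have kabc := key a b c h1 h2 h3 hab hac hbc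
  have kabd := key a b d h1 h2 h4 hab had hbd
  have kacd := key a c d h1 h3 h4 hac had hcd
  have kbcd := key b c d h2 h3 h4 hbc hbd hcd
  rcases t1 with ⟨_, e1, e2⟩ | ⟨_, e1, e2⟩ | ⟨_, e1, e2⟩
  · rcases t3 with ⟨_, f1, f2⟩ | ⟨_, f1, f2⟩ | ⟨_, f1, f2⟩
    · exact kabc e1 e2 f2
    · exact kabd e1 e2 f2
    · exact kabc e1 e2 f1
  · rcases t2 with ⟨_, f1, f2⟩ | ⟨_, f1, f2⟩ | ⟨_, f1, f2⟩
    · exact kabc e1 f2 e2
    · exact kacd e1 e2 f2
    · exact kabc e1 f1 e2
  · rcases t2 with ⟨_, f1, f2⟩ | ⟨_, f1, f2⟩ | ⟨_, f1, f2⟩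
    · exact kabc f1 e1 e2
    · exact kabc f1 e1 e2
    · exact kbcd e1 e2 f2

lemma Q4.noK4 (h : Q4 H) {a b c d : W} (hab : H.Adj a b) (hac : H.Adj a c) (had : H.Adj a d)
    (hbc : H.Adj b c) (hbd : H.Adj b d) (hcd : H.Adj c d) : False := by
  obtain ⟨T, τ, k1, k2⟩ := h
  have t0 : ¬ (τ a = τ b ∧ τ a = τ c ∧ τ a = τ d) := by
    rintro ⟨e1, e2, e3⟩
    rcases k1 a b c d e1 e2 e3 with h | h | h | h | h | h
    · exact hab.ne h
    · exact hac.ne h
    · exact had.ne h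
    · exact hbc.ne h
    · exact hbd.ne h
    · exact hcd.ne h
  have t1 := k2 a b c d hbc.ne hbd.ne hcd.ne hab hac had
  have t2 := k2 b a c d hac.ne had.ne hcd.ne hab.symm hbc hbd
  have t3 := k2 c a b d hab.ne had.ne hbd.ne hac.symm hbc.symm hcd
  have t4 := k2 d a b c hab.ne hac.ne hbc.ne had.symm hbd.symm hcd.symm
  rcases t1 with ⟨_, e1, e2⟩ | ⟨_, e1, e2⟩ | ⟨_, e1, e2⟩
  · rcases t4 with ⟨_, f1, _⟩ | ⟨_, f1, _⟩ | ⟨_, f1, _⟩
    · exact t0 ⟨e1.symm, e2.symm, f1⟩
    · exact t0 ⟨e1.symm, e2.symm, f1⟩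
    · exact t0 ⟨e1.symm, e2.symm, e1.symm.trans f1⟩
  · rcases t3 with ⟨_, f1, _⟩ | ⟨_, f1, _⟩ | ⟨_, f1, _⟩
    · exact t0 ⟨e1.symm, f1, e2.symm⟩
    · exact t0 ⟨e1.symm, f1, e2.symm⟩
    · exact t0 ⟨e1.symm, e1.symm.trans f1, e2.symm⟩
  · rcases t2 with ⟨_, f1, _⟩ | ⟨_, f1, _⟩ | ⟨_, f1, _⟩
    · exact t0 ⟨f1, e1.symm, e2.symm⟩
    · exact t0 ⟨f1, e1.symm, e2.symm⟩
    · exact t0 ⟨e1.symm.trans f1, e1.symm, e2.symm⟩

/-- at most four vertices -/
lemma card_le_four [Finite W] (h1 : Q1 H) (h2 : Q2 H) (h3 : Q3 H) (h4 : Q4 H) : Nat.card W ≤ 4 := by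
  classical
  have : Fintype W := Fintype.ofFinite W
  obtain ⟨A, k1, k2⟩ := id h2
  have hA : A.ncard ≤ 3 := by
    by_contra hcon
    push Not at hcon
    obtain ⟨B, hBA, hB⟩ := Set.exists_subset_card_eq (s := A) (n := 4) (by omega)
    rw [Set.ncard_eq_toFinset_card'] at hB
    obtain ⟨a, b, c, d, hab, hac, had, hbc, hbd, hcd, he⟩ := Finset.card_eq_four.1 hB
    have hm : ∀ x, x ∈ ({a, b, c, d} : Finset W) → x ∈ A := by
      intro x hx
      rw [← he, Set.mem_toFinset] at hx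
      exact hBA hx
    have ha := hm a (by simp)
    have hb := hm b (by simp)
    have hc := hm c (by simp)
    have hd := hm d (by simp)
    exact h4.noK4 (k1 a ha b hb hab) (k1 a ha c hc hac) (k1 a ha d hd had) (k1 b hb c hc hbc)
      (k1 b hb d hd hbd) (k1 c hc d hd hcd)
  have hB : Aᶜ.ncard ≤ 2 := by
    by_contra hcon
    push Not at hcon
    obtain ⟨B, hBA, hB⟩ := Set.exists_subset_card_eq (s := Aᶜ) (n := 3) (by omega)
    rw [Set.ncard_eq_toFinset_card'] at hB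
    obtain ⟨a, b, c, hab, hac, hbc, he⟩ := Finset.card_eq_three.1 hB
    have hm : ∀ x, x ∈ ({a, b, c} : Finset W) → x ∉ A := by
      intro x hx
      rw [← he, Set.mem_toFinset] at hx
      exact hBA hx
    have ha := hm a (by simp)
    have hb := hm b (by simp)
    have hc := hm c (by simp)
    rcases h1.no3 hab hac hbc with h | h | h
    · exact k2 a ha b hb h
    · exact k2 a ha c hc h
    · exact k2 b hb c hc h
  have hsum := Set.ncard_add_ncard_compl A
  by_contra hcon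
  push Not at hcon
  have e1 : A.ncard = 3 := by omega
  have e2 : Aᶜ.ncard = 2 := by omega
  rw [Set.ncard_eq_three] at e1
  rw [Set.ncard_eq_two] at e2
  obtain ⟨x, y, hxy, hAc⟩ := e2
  have hx : x ∉ A := by
    have : x ∈ Aᶜ := by rw [hAc]; simp
    exact this
  have hy : y ∉ A := by
    have : y ∈ Aᶜ := by rw [hAc]; simp
    exact this
  have hxyn : ¬ H.Adj x y := k2 x hx y hy
  have hcov : ∀ a ∈ A, H.Adj a x ∨ H.Adj a y := by
    intro a ha
    have hax : a ≠ x := fun h => hx (h ▸ ha)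
    have hay : a ≠ y := fun h => hy (h ▸ ha)
    rcases h1.no3 hax hay hxy with h | h | h
    · exact Or.inl h
    · exact Or.inr h
    · exact absurd h hxyn
  -- the core of the argument
  have core : ∀ x y p q r : W, x ≠ y → p ≠ q → p ≠ r → q ≠ r → x ∉ A → y ∉ A → p ∈ A → q ∈ A →
      r ∈ A → ¬ H.Adj x y → H.Adj p y → ¬ H.Adj p x → H.Adj q x → ¬ H.Adj q y →
      (H.Adj r x ∨ H.Adj r y) → False := by
    intro x y p q r hxy hpq hpr hqr hx hy hp hq hr hn a1 a2 a3 a4 a5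
    have px : p ≠ x := fun h => hx (h ▸ hp)
    have py : p ≠ y := fun h => hy (h ▸ hp)
    have qx : q ≠ x := fun h => hx (h ▸ hq)
    have qy : q ≠ y := fun h => hy (h ▸ hq)
    have rx : r ≠ x := fun h => hx (h ▸ hr)
    have ry : r ≠ y := fun h => hy (h ▸ hr)
    by_cases b1 : H.Adj r x
    · by_cases b2 : H.Adj r y
      · exact h4.deg (k1 r hr p hp hpr.symm) (k1 r hr q hq hqr.symm) b1 b2 hpq px py qx qy hxy
      · rcases h3.noK3K1 (d := y) (k1 q hq r hr hqr) a3 b1 qy.symm ry.symm hxy.symm with h | h | h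
        · exact a4 h.symm
        · exact b2 h.symm
        · exact hn h.symm
    · have b2 := a5.resolve_left b1
      rcases h3.noK3K1 (d := x) (k1 p hp r hr hpr) a1 b2 px.symm rx.symm hxy with h | h | h
      · exact a2 h.symm
      · exact b1 h.symm
      · exact hn h
  obtain ⟨a, b, c, hab, hac, hbc, hAe⟩ := e1
  have ha : a ∈ A := by rw [hAe]; simp
  have hb : b ∈ A := by rw [hAe]; simp
  have hc : c ∈ A := by rw [hAe]; simp
  have aab := k1 a ha b hb hab
  have aac := k1 a ha c hc hac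
  have abc := k1 b hb c hc hbc
  have nx : ¬ (H.Adj a x ∧ H.Adj b x ∧ H.Adj c x) := fun h => h4.noK4 aab aac h.1 abc h.2.1 h.2.2
  have ny : ¬ (H.Adj a y ∧ H.Adj b y ∧ H.Adj c y) := fun h => h4.noK4 aab aac h.1 abc h.2.1 h.2.2
  have ca := hcov a ha
  have cb := hcov b hb
  have cc := hcov c hc
  have h12 := core x y a b c hxy hab hac hbc hx hy ha hb hc hxyn
  have h13 := core x y a c b hxy hac hab hbc.symm hx hy ha hc hb hxyn
  have h21 := core x y b a c hxy hab.symm hbc hac hx hy hb ha hc hxyn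
  have h23 := core x y b c a hxy hbc hab.symm hac.symm hx hy hb hc ha hxyn
  have h31 := core x y c a b hxy hac.symm hbc.symm hab hx hy hc ha hb hxyn
  have h32 := core x y c b a hxy hbc.symm hac.symm hab.symm hx hy hc hb ha hxyn
  clear core hcov k1 k2
  by_cases u1 : H.Adj a x <;> by_cases u2 : H.Adj b x <;> by_cases u3 : H.Adj c x <;>
    by_cases v1 : H.Adj a y <;> by_cases v2 : H.Adj b y <;> by_cases v3 : H.Adj c y <;>
    simp only [u1, u2, u3, v1, v2, v3, or_true, true_or, or_false, false_or, and_true, true_and,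
      not_true_eq_false, not_false_eq_true, true_implies, false_implies, implies_true, or_self,
      and_false, false_and] at nx ny ca cb cc h12 h13 h21 h23 h31 h32

/-! ### the check on at most four vertices -/

def mk4 (b01 b02 b03 b12 b13 b23 : Bool) : Fin 4 → Fin 4 → Bool :=
  ![![false, b01, b02, b03], ![b01, false, b12, b13], ![b02, b12, false, b23],
    ![b03, b13, b23, false]]

def mk3 (b01 b02 b12 : Bool) : Fin 3 → Fin 3 → Bool :=
  ![![false, b01, b02], ![b01, false, b12], ![b02, b12, false]]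

def mP4 : Fin 4 → Fin 4 → Bool := mk4 true false false true false true
def mPaw : Fin 4 → Fin 4 → Bool := mk4 true true true true false false
def mDia : Fin 4 → Fin 4 → Bool := mk4 true true true true true false

instance : DecidableRel P4.Adj := by unfold P4; infer_instance
instance : DecidableRel paw.Adj := by unfold paw; infer_instance
instance : DecidableRel diamond.Adj := by unfold diamond; infer_instance

lemma mP4_eq : ∀ i j, mP4 i j = true ↔ P4.Adj i j := by decide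
lemma mPaw_eq : ∀ i j, mPaw i j = true ↔ paw.Adj i j := by decide
lemma mDia_eq : ∀ i j, mDia i j = true ↔ diamond.Adj i j := by decide

def Bad4 (M : Fin 4 → Fin 4 → Bool) : Prop :=
  (∃ a b c : Fin 4, a ≠ b ∧ a ≠ c ∧ b ≠ c ∧ M a b = false ∧ M a c = false ∧ M b c = false) ∨
  (∃ a b c d : Fin 4, a ≠ c ∧ a ≠ d ∧ b ≠ c ∧ b ≠ d ∧ M a b = true ∧ M c d = true ∧
    M a c = false ∧ M a d = false ∧ M b c = false ∧ M b d = false) ∨
  (∃ a b c d : Fin 4, a ≠ c ∧ b ≠ d ∧ M a b = true ∧ M b c = true ∧ M c d = true ∧ M d a = true ∧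
    M a c = false ∧ M b d = false) ∨
  (∃ a b c d : Fin 4, M a b = true ∧ M a c = true ∧ M b c = true ∧ d ≠ a ∧ d ≠ b ∧ d ≠ c ∧
    M d a = false ∧ M d b = false ∧ M d c = false) ∨
  (M 0 1 = true ∧ M 0 2 = true ∧ M 0 3 = true ∧ M 1 2 = true ∧ M 1 3 = true ∧ M 2 3 = true)

instance (M : Fin 4 → Fin 4 → Bool) : Decidable (Bad4 M) := by unfold Bad4; infer_instance

def Emb {n : ℕ} (M : Fin n → Fin n → Bool) (N : Fin 4 → Fin 4 → Bool) : Prop :=
  ∃ g : Fin n → Fin 4, (∀ i j, g i = g j → i = j) ∧ ∀ i j, M i j = N (g i) (g j)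

instance {n : ℕ} (M : Fin n → Fin n → Bool) (N : Fin 4 → Fin 4 → Bool) : Decidable (Emb M N) := by
  unfold Emb; infer_instance

lemma check4 : ∀ a b c d e f : Bool, Bad4 (mk4 a b c d e f) ∨ Emb (mk4 a b c d e f) mP4 ∨
    Emb (mk4 a b c d e f) mPaw ∨ Emb (mk4 a b c d e f) mDia := by
  decide +kernel

lemma check3 : ∀ a b c : Bool, (a = false ∧ b = false ∧ c = false) ∨ Emb (mk3 a b c) mP4 ∨
    Emb (mk3 a b c) mPaw := by
  decide +kernel

lemma emb_iff {n : ℕ} (e : W ≃ Fin n) (M : Fin n → Fin n → Bool)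
    (hM : ∀ i j, M i j = true ↔ H.Adj (e.symm i) (e.symm j)) {N : Fin 4 → Fin 4 → Bool}
    {K : SimpleGraph (Fin 4)} (hN : ∀ i j, N i j = true ↔ K.Adj i j) (h : Emb M N) : H ⊴ K := by
  obtain ⟨g, hg, hadj⟩ := h
  refine ⟨⟨⟨fun w => g (e w), fun x y hxy => e.injective (hg (e x) (e y) hxy)⟩, ?_⟩⟩
  intro x y
  change K.Adj (g (e x)) (g (e y)) ↔ H.Adj x y
  rw [← hN, ← hadj, hM, e.symm_apply_apply, e.symm_apply_apply]

theorem small_class [Finite W] (h1 : Q1 H) (h2 : Q2 H) (h3 : Q3 H) (h4 : Q4 H) :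
    H ⊴ P4 ∨ H ⊴ paw ∨ H ⊴ diamond := by
  classical
  have hc := card_le_four h1 h2 h3 h4
  have : Fintype W := Fintype.ofFinite W
  rw [Nat.card_eq_fintype_card] at hc
  obtain ⟨n, hn⟩ : ∃ n, Fintype.card W = n := ⟨_, rfl⟩
  have e : W ≃ Fin n := Fintype.equivFinOfCardEq hn
  rw [hn] at hc
  let M : Fin n → Fin n → Bool := fun i j => decide (H.Adj (e.symm i) (e.symm j))
  have hM : ∀ i j, M i j = true ↔ H.Adj (e.symm i) (e.symm j) := by intro i j; simp [M]
  have hMf : ∀ i j, M i j = false ↔ ¬ H.Adj (e.symm i) (e.symm j) := by intro i j; simp [M]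
  have hMs : ∀ i j, M i j = M j i := by
    intro i j
    simp only [M, H.adj_comm]
  have hMi : ∀ i, M i i = false := by
    intro i
    rw [hMf]
    exact H.irrefl
  have hinj : ∀ i j, i ≠ j → e.symm i ≠ e.symm j := fun i j h h' => h (e.symm.injective h')
  clear_value M
  interval_cases n
  · exact Or.inl (emb_iff e M hM mP4_eq ⟨fun i => i.elim0, fun i => i.elim0, fun i => i.elim0⟩)
  · refine Or.inl (emb_iff e M hM mP4_eq ⟨fun _ => 0, fun i j _ => Subsingleton.elim i j, ?_⟩)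
    intro i j
    rw [Subsingleton.elim i j, hMi]
    rfl
  · by_cases h01 : M 0 1 = true
    · refine Or.inl (emb_iff e M hM mP4_eq ⟨![0, 1], by decide, ?_⟩)
      intro i j
      fin_cases i <;> fin_cases j
      · exact hMi 0
      · exact h01
      · exact (hMs 1 0).trans h01
      · exact hMi 1
    · rw [Bool.not_eq_true] at h01
      refine Or.inl (emb_iff e M hM mP4_eq ⟨![0, 2], by decide, ?_⟩)
      intro i j
      fin_cases i <;> fin_cases j
      · exact hMi 0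
      · exact h01
      · exact (hMs 1 0).trans h01
      · exact hMi 1
  · have hMe : M = mk3 (M 0 1) (M 0 2) (M 1 2) := by
      funext i j
      fin_cases i <;> fin_cases j
      · exact hMi 0
      · rfl
      · rfl
      · exact hMs 1 0
      · exact hMi 1
      · rfl
      · exact hMs 2 0
      · exact hMs 2 1
      · exact hMi 2
    rcases check3 (M 0 1) (M 0 2) (M 1 2) with h | h | h
    · exfalso
      rw [hMf, hMf, hMf] at h
      rcases h1.no3 (hinj 0 1 (by decide)) (hinj 0 2 (by decide)) (hinj 1 2 (by decide)) with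
        h' | h' | h'
      · exact h.1 h'
      · exact h.2.1 h'
      · exact h.2.2 h'
    · rw [← hMe] at h
      exact Or.inl (emb_iff e M hM mP4_eq h)
    · rw [← hMe] at h
      exact Or.inr (Or.inl (emb_iff e M hM mPaw_eq h))
  · have hMe : M = mk4 (M 0 1) (M 0 2) (M 0 3) (M 1 2) (M 1 3) (M 2 3) := by
      funext i j
      fin_cases i <;> fin_cases j
      · exact hMi 0
      · rfl
      · rfl
      · rfl
      · exact hMs 1 0
      · exact hMi 1
      · rfl
      · rfl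
      · exact hMs 2 0
      · exact hMs 2 1
      · exact hMi 2
      · rfl
      · exact hMs 3 0
      · exact hMs 3 1
      · exact hMs 3 2
      · exact hMi 3
    rcases check4 (M 0 1) (M 0 2) (M 0 3) (M 1 2) (M 1 3) (M 2 3) with h | h | h | h
    · exfalso
      rw [← hMe] at h
      rcases h with ⟨a, b, c, hab, hac, hbc, h⟩ | ⟨a, b, c, d, hac, had, hbc, hbd, k1, k2, k3⟩ |
        ⟨a, b, c, d, hac, hbd, k1, k2, k3, k4, k5⟩ | ⟨a, b, c, d, k1, k2, k3, n1, n2, n3, k4⟩ | h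
      · rw [hMf, hMf, hMf] at h
        rcases h1.no3 (hinj a b hab) (hinj a c hac) (hinj b c hbc) with h' | h' | h'
        · exact h.1 h'
        · exact h.2.1 h'
        · exact h.2.2 h'
      · rw [hM] at k1 k2
        rw [hMf, hMf, hMf, hMf] at k3
        rcases h2.no2K2 (hinj a c hac) (hinj a d had) (hinj b c hbc) (hinj b d hbd) k1 k2 with
          h' | h' | h' | h'
        · exact k3.1 h'
        · exact k3.2.1 h'
        · exact k3.2.2.1 h'
        · exact k3.2.2.2 h'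
      · rw [hM] at k1 k2 k3 k4
        rw [hMf, hMf] at k5
        rcases h2.noC4 (hinj a c hac) (hinj b d hbd) k1 k2 k3 k4 with h' | h'
        · exact k5.1 h'
        · exact k5.2 h'
      · rw [hM] at k1 k2 k3
        rw [hMf, hMf, hMf] at k4
        rcases h3.noK3K1 k1 k2 k3 (hinj d a n1) (hinj d b n2) (hinj d c n3) with h' | h' | h'
        · exact k4.1 h'
        · exact k4.2.1 h'
        · exact k4.2.2 h'
      · simp only [hM] at h
        exact h4.noK4 h.1 h.2.1 h.2.2.1 h.2.2.2.1 h.2.2.2.2.1 h.2.2.2.2.2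
    · rw [← hMe] at h
      exact Or.inl (emb_iff e M hM mP4_eq h)
    · rw [← hMe] at h
      exact Or.inr (Or.inl (emb_iff e M hM mPaw_eq h))
    · rw [← hMe] at h
      exact Or.inr (Or.inr (emb_iff e M hM mDia_eq h))

end Pool.Agent.X55.Itm
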