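import Pool.Agent.X55.Itm.Defs

/-!
# Four classes closed under induced subgraphs and undoing subdivisions
-/

namespace Pool.Agent.X55.Itm

open SimpleGraph Pool.Agent.H175R2

/-- co-bipartite -/
def Q1 {V : Type} (G : SimpleGraph V) : Prop :=
  ∃ A : Set V, (∀ x ∈ A, ∀ y ∈ A, x ≠ y → G.Adj x y) ∧ ∀ x, x ∉ A → ∀ y, y ∉ A → x ≠ y → G.Adj x y

/-- split -/
def Q2 {V : Type} (G : SimpleGraph V) : Prop :=
  ∃ A : Set V, (∀ x ∈ A, ∀ y ∈ A, x ≠ y → G.Adj x y) ∧ ∀ x, x ∉ A → ∀ y, y ∉ A → ¬ G.Adj x y

/-- no cycle together with a vertex anticomplete to it -/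
def Q3 {V : Type} (G : SimpleGraph V) : Prop :=
  ∀ v : V, ∀ S : Set V, S.Nonempty → (∀ s ∈ S, s ≠ v ∧ ¬ G.Adj v s) →
    ¬ ∀ s ∈ S, ∃ a ∈ S, ∃ b ∈ S, a ≠ b ∧ G.Adj s a ∧ G.Adj s b

/-- truncation type: classes of size at most three, and among three neighbours of a vertex two are
adjacent and in the class of the vertex -/
def Q4 {V : Type} (G : SimpleGraph V) : Prop :=
  ∃ (T : Type) (τ : V → T),
    (∀ a b c d, τ a = τ b → τ a = τ c → τ a = τ d → a = b ∨ a = c ∨ a = d ∨ b = c ∨ b = d ∨ c = d) ∧
    ∀ v a b c, a ≠ b → a ≠ c → b ≠ c → G.Adj v a → G.Adj v b → G.Adj v c →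
      (G.Adj a b ∧ τ a = τ v ∧ τ b = τ v) ∨ (G.Adj a c ∧ τ a = τ v ∧ τ c = τ v) ∨
        (G.Adj b c ∧ τ b = τ v ∧ τ c = τ v)

theorem closed_Q1 : Closed @Q1 := by
  refine ⟨?_, ?_⟩
  · rintro V V' G G' e ⟨A, h1, h2⟩
    refine ⟨e ⁻¹' A, fun x hx y hy hxy => ?_, fun x hx y hy hxy => ?_⟩
    · exact e.map_adj_iff.1 (h1 _ hx _ hy (fun h => hxy (e.injective h)))
    · exact e.map_adj_iff.1 (h2 _ hx _ hy (fun h => hxy (e.injective h)))
  · rintro V G x y hxy ⟨A, h1, h2⟩
    refine ⟨{v | some v ∈ A}, fun a ha b hb hab => ?_, fun a ha b hb hab => ?_⟩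
    · exact (h1 _ ha _ hb (by simpa using hab)).1
    · exact (h2 _ ha _ hb (by simpa using hab)).1

theorem closed_Q2 : Closed @Q2 := by
  refine ⟨?_, ?_⟩
  · rintro V V' G G' e ⟨A, h1, h2⟩
    refine ⟨e ⁻¹' A, fun x hx y hy hxy => ?_, fun x hx y hy hxy => ?_⟩
    · exact e.map_adj_iff.1 (h1 _ hx _ hy (fun h => hxy (e.injective h)))
    · exact h2 _ hx _ hy (e.map_adj_iff.2 hxy)
  · rintro V G x y hxy ⟨A, h1, h2⟩
    have hne : x ≠ y := hxy.ne
    have hn : (none : Option V) ∈ A := by
      by_contra hn
      have hx : some x ∈ A := by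
        by_contra hx
        exact h2 _ hn _ hx (by simp)
      have hy : some y ∈ A := by
        by_contra hy
        exact h2 _ hn _ hy (by simp)
      have := (h1 _ hx _ hy (by simpa using hne)).2.1
      exact this ⟨rfl, rfl⟩
    have hsub : ∀ a, some a ∈ A → a = x ∨ a = y := fun a ha => h1 _ hn _ ha (by simp)
    by_cases hx : some x ∈ A
    · refine ⟨{x}, ?_, ?_⟩
      · rintro a rfl b rfl hab
        exact absurd rfl hab
      · intro a ha b hb hab
        have ha' : some a ∉ A := by
          intro h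
          rcases hsub a h with rfl | rfl
          · exact ha rfl
          · exact (h1 _ hx _ h (by simpa using hne)).2.1 ⟨rfl, rfl⟩
        have hb' : some b ∉ A := by
          intro h
          rcases hsub b h with rfl | rfl
          · exact hb rfl
          · exact (h1 _ hx _ h (by simpa using hne)).2.1 ⟨rfl, rfl⟩
        exact h2 _ ha' _ hb' ⟨hab, fun h => ha h.1, fun h => hb h.2⟩
    · refine ⟨{y}, ?_, ?_⟩
      · rintro a rfl b rfl hab
        exact absurd rfl hab
      · intro a ha b hb hab
        have ha' : some a ∉ A := by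
          intro h
          rcases hsub a h with rfl | rfl
          · exact hx h
          · exact ha rfl
        have hb' : some b ∉ A := by
          intro h
          rcases hsub b h with rfl | rfl
          · exact hx h
          · exact hb rfl
        exact h2 _ ha' _ hb' ⟨hab, fun h => hb h.2, fun h => ha h.1⟩

theorem closed_Q3 : Closed @Q3 := by
  refine ⟨?_, ?_⟩
  · intro V V' G G' e h v S hS hv hcyc
    refine h (e v) (e '' S) (hS.image _) ?_ ?_
    · rintro _ ⟨s, hs, rfl⟩
      refine ⟨fun h => (hv s hs).1 (e.injective h), fun h => (hv s hs).2 (e.map_adj_iff.1 h)⟩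
    · rintro _ ⟨s, hs, rfl⟩
      obtain ⟨a, ha, b, hb, hab, h1, h2⟩ := hcyc s hs
      exact ⟨e a, ⟨a, ha, rfl⟩, e b, ⟨b, hb, rfl⟩, fun h => hab (e.injective h),
        e.map_adj_iff.2 h1, e.map_adj_iff.2 h2⟩
  · intro V G x y hxy h v S hS hv hcyc
    have hne : x ≠ y := hxy.ne
    by_cases hb : x ∈ S ∧ y ∈ S
    · -- add the new vertex
      refine h (some v) (insert none (some '' S)) ⟨none, by simp⟩ ?_ ?_
      · rintro _ (rfl | ⟨s, hs, rfl⟩)
        · refine ⟨by simp, ?_⟩
          rintro (h | h)
          · exact (hv x hb.1).1 h.symm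
          · exact (hv y hb.2).1 h.symm
        · refine ⟨fun h => (hv s hs).1 (Option.some.inj h), fun h => (hv s hs).2 h.1⟩
      · rintro _ (rfl | ⟨s, hs, rfl⟩)
        · exact ⟨some x, Or.inr ⟨x, hb.1, rfl⟩, some y, Or.inr ⟨y, hb.2, rfl⟩, by simpa using hne,
            Or.inl rfl, Or.inr rfl⟩
        · obtain ⟨a, ha, b, hb', hab, h1, h2⟩ := hcyc s hs
          by_cases hsx : s = x
          · subst hsx
            by_cases hay : a = y
            · subst hay
              refine ⟨none, Or.inl rfl, some b, Or.inr ⟨b, hb', rfl⟩, by simp, Or.inl rfl, h2,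
                fun h => hab h.2.symm, fun h => hne h.1⟩
            · by_cases hby : b = y
              · subst hby
                refine ⟨none, Or.inl rfl, some a, Or.inr ⟨a, ha, rfl⟩, by simp, Or.inl rfl, h1,
                  fun h => hab h.2, fun h => hne h.1⟩
              · exact ⟨some a, Or.inr ⟨a, ha, rfl⟩, some b, Or.inr ⟨b, hb', rfl⟩,
                  by simpa using hab, ⟨h1, fun h => hay h.2, fun h => hne h.1⟩,
                  ⟨h2, fun h => hby h.2, fun h => hne h.1⟩⟩
          · by_cases hsy : s = y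
            · subst hsy
              by_cases hax : a = x
              · subst hax
                refine ⟨none, Or.inl rfl, some b, Or.inr ⟨b, hb', rfl⟩, by simp, Or.inr rfl, h2,
                  fun h => hne h.1.symm, fun h => hab h.2.symm⟩
              · by_cases hbx : b = x
                · subst hbx
                  refine ⟨none, Or.inl rfl, some a, Or.inr ⟨a, ha, rfl⟩, by simp, Or.inr rfl, h1,
                    fun h => hne h.1.symm, fun h => hab h.2⟩
                · exact ⟨some a, Or.inr ⟨a, ha, rfl⟩, some b, Or.inr ⟨b, hb', rfl⟩,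
                    by simpa using hab, ⟨h1, fun h => hne h.1.symm, fun h => hax h.2⟩,
                    ⟨h2, fun h => hne h.1.symm, fun h => hbx h.2⟩⟩
            · exact ⟨some a, Or.inr ⟨a, ha, rfl⟩, some b, Or.inr ⟨b, hb', rfl⟩,
                    by simpa using hab, ⟨h1, fun h => hsx h.1, fun h => hsy h.1⟩,
                    ⟨h2, fun h => hsx h.1, fun h => hsy h.1⟩⟩
    · refine h (some v) (some '' S) (hS.image _) ?_ ?_
      · rintro _ ⟨s, hs, rfl⟩
        refine ⟨fun h => (hv s hs).1 (Option.some.inj h), fun h => (hv s hs).2 h.1⟩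
      · rintro _ ⟨s, hs, rfl⟩
        obtain ⟨a, ha, b, hb', hab, h1, h2⟩ := hcyc s hs
        refine ⟨some a, ⟨a, ha, rfl⟩, some b, ⟨b, hb', rfl⟩, by simpa using hab,
          ⟨h1, ?_, ?_⟩, ⟨h2, ?_, ?_⟩⟩
        · rintro ⟨rfl, rfl⟩; exact hb ⟨hs, ha⟩
        · rintro ⟨rfl, rfl⟩; exact hb ⟨ha, hs⟩
        · rintro ⟨rfl, rfl⟩; exact hb ⟨hs, hb'⟩
        · rintro ⟨rfl, rfl⟩; exact hb ⟨hb', hs⟩

theorem closed_Q4 : Closed @Q4 := by
  refine ⟨?_, ?_⟩
  · rintro V V' G G' e ⟨T, τ, h1, h2⟩
    refine ⟨T, fun v => τ (e v), fun a b c d hb hc hd => ?_, fun v a b c hab hac hbc ha hb hc => ?_⟩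
    · have := h1 _ _ _ _ hb hc hd
      simpa only [e.injective.eq_iff] using this
    · have := h2 (e v) (e a) (e b) (e c) (fun h => hab (e.injective h))
        (fun h => hac (e.injective h)) (fun h => hbc (e.injective h)) (e.map_adj_iff.2 ha)
        (e.map_adj_iff.2 hb) (e.map_adj_iff.2 hc)
      simpa only [e.map_adj_iff] using this
  · rintro V G x y hxy ⟨T, τ, h1, h2⟩
    have hne : x ≠ y := hxy.ne
    refine ⟨T, fun v => τ (some v), fun a b c d hb hc hd => ?_, ?_⟩
    · have := h1 _ _ _ _ hb hc hd
      simpa only [Option.some.injEq] using this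
    · -- the key: replace the neighbour at the other end of the subdivided edge by `none`
      have key : ∀ v a b c, a ≠ b → a ≠ c → b ≠ c → G.Adj v a → G.Adj v b → G.Adj v c →
          ¬ (v = x ∧ b = y) → ¬ (v = y ∧ b = x) → ¬ (v = x ∧ c = y) → ¬ (v = y ∧ c = x) →
          (G.Adj a b ∧ τ (some a) = τ (some v) ∧ τ (some b) = τ (some v)) ∨
          (G.Adj a c ∧ τ (some a) = τ (some v) ∧ τ (some c) = τ (some v)) ∨
          (G.Adj b c ∧ τ (some b) = τ (some v) ∧ τ (some c) = τ (some v)) := by
        intro v a b c hab hac hbc ha hb hc n1 n2 n3 n4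
        by_cases hs : (v = x ∧ a = y) ∨ (v = y ∧ a = x)
        · have hvn : (subdivideEdge G x y).Adj (some v) none := by
            rcases hs with hs | hs
            · exact Or.inl hs.1
            · exact Or.inr hs.1
          have := h2 (some v) none (some b) (some c) (by simp) (by simp) (by simpa using hbc)
            hvn ⟨hb, n1, n2⟩ ⟨hc, n3, n4⟩
          rcases this with ⟨h, _, _⟩ | ⟨h, _, _⟩ | ⟨h, h', h''⟩
          · exfalso
            rcases h with h | h
            · rcases hs with hs | hs
              · exact hb.ne (hs.1.trans h.symm)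
              · exact n2 ⟨hs.1, h⟩
            · rcases hs with hs | hs
              · exact n1 ⟨hs.1, h⟩
              · exact hb.ne (hs.1.trans h.symm)
          · exfalso
            rcases h with h | h
            · rcases hs with hs | hs
              · exact hc.ne (hs.1.trans h.symm)
              · exact n4 ⟨hs.1, h⟩
            · rcases hs with hs | hs
              · exact n3 ⟨hs.1, h⟩
              · exact hc.ne (hs.1.trans h.symm)
          · exact Or.inr (Or.inr ⟨h.1, h', h''⟩)
        · rw [not_or] at hs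
          have := h2 (some v) (some a) (some b) (some c) (by simpa using hab) (by simpa using hac)
            (by simpa using hbc) ⟨ha, hs.1, hs.2⟩ ⟨hb, n1, n2⟩ ⟨hc, n3, n4⟩
          rcases this with ⟨h, h', h''⟩ | ⟨h, h', h''⟩ | ⟨h, h', h''⟩
          · exact Or.inl ⟨h.1, h', h''⟩
          · exact Or.inr (Or.inl ⟨h.1, h', h''⟩)
          · exact Or.inr (Or.inr ⟨h.1, h', h''⟩)
      intro v a b c hab hac hbc ha hb hc
      by_cases hB : (v = x ∧ b = y) ∨ (v = y ∧ b = x)
      · have hA : ¬ (v = x ∧ a = y) ∧ ¬ (v = y ∧ a = x) := by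
          constructor
          · rintro ⟨h, h'⟩
            rcases hB with hB | hB
            · exact hab (h'.trans hB.2.symm)
            · exact hne (h.symm.trans hB.1)
          · rintro ⟨h, h'⟩
            rcases hB with hB | hB
            · exact hne (hB.1.symm.trans h)
            · exact hab (h'.trans hB.2.symm)
        have hC : ¬ (v = x ∧ c = y) ∧ ¬ (v = y ∧ c = x) := by
          constructor
          · rintro ⟨h, h'⟩
            rcases hB with hB | hB
            · exact hbc (hB.2.trans h'.symm)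
            · exact hne (h.symm.trans hB.1)
          · rintro ⟨h, h'⟩
            rcases hB with hB | hB
            · exact hne (hB.1.symm.trans h)
            · exact hbc (hB.2.trans h'.symm)
        rcases key v b a c hab.symm hbc hac hb ha hc hA.1 hA.2 hC.1 hC.2 with h | h | h
        · exact Or.inl ⟨h.1.symm, h.2.2, h.2.1⟩
        · exact Or.inr (Or.inr h)
        · exact Or.inr (Or.inl h)
      · rw [not_or] at hB
        by_cases hC' : (v = x ∧ c = y) ∨ (v = y ∧ c = x)
        · have hA : ¬ (v = x ∧ a = y) ∧ ¬ (v = y ∧ a = x) := by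
            constructor
            · rintro ⟨h, h'⟩
              rcases hC' with hB | hB
              · exact hac (h'.trans hB.2.symm)
              · exact hne (h.symm.trans hB.1)
            · rintro ⟨h, h'⟩
              rcases hC' with hB | hB
              · exact hne (hB.1.symm.trans h)
              · exact hac (h'.trans hB.2.symm)
          rcases key v c a b hac.symm hbc.symm hab hc ha hb hA.1 hA.2 hB.1 hB.2 with h | h | h
          · exact Or.inr (Or.inl ⟨h.1.symm, h.2.2, h.2.1⟩)
          · exact Or.inr (Or.inr ⟨h.1.symm, h.2.2, h.2.1⟩)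
          · exact Or.inl h
        · rw [not_or] at hC'
          exact key v a b c hab hac hbc ha hb hc hB.1 hB.2 hC'.1 hC'.2

end Pool.Agent.X55.Itm
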