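import Pool.Agent.X55.Itm.Red

/-!
# Induced cycles, and the subdivided paws and diamonds they give
-/

namespace Pool.Agent.X55.Itm

open SimpleGraph Pool.Agent.H175R2

variable {W V : Type} {H : SimpleGraph W} {K K' : SimpleGraph V}

/-- induced cycle of length `n` -/
structure Cyc (K : SimpleGraph V) (c : ℕ → V) (n : ℕ) : Prop where
  three : 3 ≤ n
  inj : ∀ i j, i < n → j < n → c i = c j → i = j
  adj : ∀ i j, i < j → j < n → (K.Adj (c i) (c j) ↔ j = i + 1 ∨ (i = 0 ∧ j = n - 1))

/-- its vertex set -/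
def C (c : ℕ → V) (n : ℕ) : Set V := {v | ∃ i, i < n ∧ v = c i}

lemma mem_C {c : ℕ → V} {n i : ℕ} (h : i < n) : c i ∈ C c n := ⟨i, h, rfl⟩

def rot (s : ℕ) (c : ℕ → V) (n : ℕ) : ℕ → V := fun i => if i + s < n then c (i + s) else c (i + s - n)

lemma Cyc.rot {c : ℕ → V} {n : ℕ} (h : Cyc K c n) {s : ℕ} (hs : s < n) :
    Cyc K (rot s c n) n := by
  have h3 := h.three
  refine ⟨h.three, ?_, ?_⟩
  · intro i j hi hj hij
    simp only [Itm.rot] at hij
    split_ifs at hij with h1 h2 h2
    · have := h.inj _ _ (by omega) (by omega) hij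
      omega
    · have := h.inj _ _ (by omega) (by omega) hij
      omega
    · have := h.inj _ _ (by omega) (by omega) hij
      omega
    · have := h.inj _ _ (by omega) (by omega) hij
      omega
  · intro i j hij hj
    simp only [Itm.rot]
    split_ifs with h1 h2 h2
    · rw [h.adj _ _ (by omega) (by omega)]
      omega
    · rw [K.adj_comm, h.adj _ _ (by omega) (by omega)]
      omega
    · omega
    · rw [h.adj _ _ (by omega) (by omega)]
      omega

lemma C_rot {c : ℕ → V} {n s : ℕ} (hs : s < n) : C (rot s c n) n = C c n := by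
  ext v
  constructor
  · rintro ⟨i, hi, rfl⟩
    simp only [Itm.rot]
    split_ifs with h1
    · exact mem_C h1
    · exact mem_C (by omega)
  · rintro ⟨i, hi, rfl⟩
    by_cases h : s ≤ i
    · refine ⟨i - s, by omega, ?_⟩
      simp only [Itm.rot]
      rw [if_pos (by omega)]
      congr 1
      omega
    · refine ⟨i + n - s, by omega, ?_⟩
      simp only [Itm.rot]
      rw [if_neg (by omega)]
      congr 1
      omega

lemma rot_zero {c : ℕ → V} {n s : ℕ} (hs : s < n) : rot s c n 0 = c s := by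
  simp [Itm.rot, hs]

lemma Cyc.congr {c : ℕ → V} {n : ℕ} (h : Cyc K c n)
    (hK : ∀ u ∈ C c n, ∀ v ∈ C c n, (K'.Adj u v ↔ K.Adj u v)) : Cyc K' c n := by
  refine ⟨h.three, h.inj, fun i j hij hj => ?_⟩
  rw [hK _ (mem_C (by omega)) _ (mem_C hj)]
  exact h.adj i j hij hj

lemma diamond_iso {a b c d : V} {S : Set V} (hS : ∀ v, v ∈ S ↔ v = a ∨ v = b ∨ v = c ∨ v = d)
    (hab : K.Adj a b) (hac : K.Adj a c) (had : K.Adj a d) (hbc : K.Adj b c) (hbd : K.Adj b d)
    (hcd : ¬ K.Adj c d) (hne : c ≠ d) : IsSubdivision diamond (K.induce S) := by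
  refine .iso _ ⟨?_⟩
  let f : Fin 4 → S := ![⟨a, by simp [hS]⟩, ⟨b, by simp [hS]⟩, ⟨c, by simp [hS]⟩, ⟨d, by simp [hS]⟩]
  have hf : Function.Bijective f := by
    constructor
    · intro i j hij
      have hij' := congrArg Subtype.val hij
      fin_cases i <;> fin_cases j <;> first | rfl | (exfalso; simp [f] at hij')
      · exact hab.ne hij'
      · exact hac.ne hij'
      · exact had.ne hij'
      · exact hab.ne hij'.symm
      · exact hbc.ne hij'
      · exact hbd.ne hij'
      · exact hac.ne hij'.symm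
      · exact hbc.ne hij'.symm
      · exact hne hij'
      · exact had.ne hij'.symm
      · exact hbd.ne hij'.symm
      · exact hne hij'.symm
    · rintro ⟨v, hv⟩
      rcases (hS v).1 hv with rfl | rfl | rfl | rfl
      · exact ⟨0, rfl⟩
      · exact ⟨1, rfl⟩
      · exact ⟨2, rfl⟩
      · exact ⟨3, rfl⟩
  refine ⟨Equiv.ofBijective f hf, ?_⟩
  intro i j
  have hcd' : ¬ K.Adj d c := fun h => hcd h.symm
  fin_cases i <;> fin_cases j <;>
    simp [f, diamond, hab, hac, had, hbc, hbd, hcd, hcd', hab.symm, hac.symm, had.symm, hbc.symm,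
      hbd.symm]

lemma paw_iso {a b c d : V} {S : Set V} (hS : ∀ v, v ∈ S ↔ v = a ∨ v = b ∨ v = c ∨ v = d)
    (hab : K.Adj a b) (hac : K.Adj a c) (had : K.Adj a d) (hbc : K.Adj b c) (hbd : ¬ K.Adj b d)
    (hcd : ¬ K.Adj c d) (hne : c ≠ d) (hne' : b ≠ d) : IsSubdivision paw (K.induce S) := by
  refine .iso _ ⟨?_⟩
  let f : Fin 4 → S := ![⟨a, by simp [hS]⟩, ⟨b, by simp [hS]⟩, ⟨c, by simp [hS]⟩, ⟨d, by simp [hS]⟩]
  have hf : Function.Bijective f := by
    constructor
    · intro i j hij
      have hij' := congrArg Subtype.val hij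
      fin_cases i <;> fin_cases j <;> first | rfl | (exfalso; simp [f] at hij')
      · exact hab.ne hij'
      · exact hac.ne hij'
      · exact had.ne hij'
      · exact hab.ne hij'.symm
      · exact hbc.ne hij'
      · exact hne' hij'
      · exact hac.ne hij'.symm
      · exact hbc.ne hij'.symm
      · exact hne hij'
      · exact had.ne hij'.symm
      · exact hne' hij'.symm
      · exact hne hij'.symm
    · rintro ⟨v, hv⟩
      rcases (hS v).1 hv with rfl | rfl | rfl | rfl
      · exact ⟨0, rfl⟩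
      · exact ⟨1, rfl⟩
      · exact ⟨2, rfl⟩
      · exact ⟨3, rfl⟩
  refine ⟨Equiv.ofBijective f hf, ?_⟩
  intro i j
  have hcd' : ¬ K.Adj d c := fun h => hcd h.symm
  have hbd' : ¬ K.Adj d b := fun h => hbd h.symm
  fin_cases i <;> fin_cases j <;>
    simp [f, paw, hab, hac, had, hbc, hbd, hcd, hcd', hbd', hab.symm, hac.symm, had.symm, hbc.symm]

/-- the long side of a cycle as an ear -/
lemma Cyc.side {c : ℕ → V} {n : ℕ} (h : Cyc K c n) {P : V} (hP : P ∉ C c n)
    (hn : ∀ i, 2 ≤ i → i < n → ¬ K.Adj P (c i)) :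
    Ear K {c 0, c 1, P} (fun i => c (i + 1)) (n - 2) (c 1) (c 0) ∧
      ({c 0, c 1, P} ∪ I (fun i => c (i + 1)) (n - 2) : Set V) = insert P (C c n) := by
  have h3 := h.three
  have hPc : ∀ i, i < n → c i ≠ P := fun i hi he => hP (he ▸ mem_C hi)
  have hc01 : c 1 ≠ c 0 := fun he => by have := h.inj 1 0 (by omega) (by omega) he; omega
  refine ⟨⟨by omega, by simp, by simp, hc01, ?_, ?_, ?_, ?_⟩, ?_⟩
  · intro i j h1 h2 h4 h5 he
    have := h.inj _ _ (by omega) (by omega) he
    omega
  · intro i h1 h2 hm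
    simp only [Set.mem_insert_iff, Set.mem_singleton_iff] at hm
    rcases hm with hm | hm | hm
    · have := h.inj _ _ (by omega) (by omega) hm
      omega
    · have := h.inj _ _ (by omega) (by omega) hm
      omega
    · exact hPc _ (by omega) hm
  · rintro i h1 h2 w (rfl | rfl | rfl)
    · rw [K.adj_comm, h.adj 0 (i + 1) (by omega) (by omega)]
      constructor
      · rintro (h4 | h4)
        · omega
        · exact Or.inr ⟨by omega, rfl⟩
      · rintro (h4 | h4)
        · exact absurd h4.2.symm hc01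
        · exact Or.inr ⟨rfl, by omega⟩
    · rw [K.adj_comm, h.adj 1 (i + 1) (by omega) (by omega)]
      constructor
      · rintro (h4 | h4)
        · exact Or.inl ⟨by omega, rfl⟩
        · omega
      · rintro (h4 | h4)
        · exact Or.inl (by omega)
        · exact absurd h4.2 hc01
    · constructor
      · intro h4
        exact absurd h4.symm (hn _ (by omega) (by omega))
      · rintro (h4 | h4)
        · exact absurd h4.2.symm (hPc 1 (by omega))
        · exact absurd h4.2.symm (hPc 0 (by omega))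
  · intro i j h1 h2 h4
    rw [h.adj _ _ (by omega) (by omega)]
    omega
  · ext v
    simp only [Set.mem_union, Set.mem_insert_iff, Set.mem_singleton_iff]
    constructor
    · rintro ((rfl | rfl | rfl) | ⟨i, h1, h2, rfl⟩)
      · exact Or.inr (mem_C (by omega))
      · exact Or.inr (mem_C (by omega))
      · exact Or.inl rfl
      · exact Or.inr (mem_C (by omega))
    · rintro (rfl | ⟨i, h1, rfl⟩)
      · exact Or.inl (Or.inr (Or.inr rfl))
      · by_cases h0 : i = 0
        · subst h0; exact Or.inl (Or.inl rfl)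
        · by_cases h1' : i = 1
          · subst h1'; exact Or.inl (Or.inr (Or.inl rfl))
          · exact Or.inr ⟨i - 1, by omega, by omega, by simp only; congr 1; omega⟩

/-- a vertex with exactly one neighbour on an induced cycle gives a subdivided paw -/
lemma Cyc.paw {c : ℕ → V} {n : ℕ} (h : Cyc K c n) {P : V} (hP : P ∉ C c n)
    (hadj : ∀ i, i < n → (K.Adj P (c i) ↔ i = 0)) :
    IsSubdivision paw (K.induce (insert P (C c n))) := by
  have h3 := h.three
  obtain ⟨h1, h2⟩ := h.side hP (fun i hi hi' ha => by rw [hadj i hi'] at ha; omega)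
  obtain ⟨K', k1, k2, k3⟩ := h1.red_one
  rw [← h2]
  apply k3
  have c0 : c 0 ∈ ({c 0, c 1, P} : Set V) := by simp
  have c1 : c 1 ∈ ({c 0, c 1, P} : Set V) := by simp
  have cP : P ∈ ({c 0, c 1, P} : Set V) := by simp
  have hP0 : K.Adj P (c 0) := (hadj 0 (by omega)).2 rfl
  have hP1 : ¬ K.Adj P (c 1) := fun h => by rw [hadj 1 (by omega)] at h; omega
  have h01 : K.Adj (c 0) (c 1) := (h.adj 0 1 (by omega) (by omega)).2 (Or.inl rfl)
  refine paw_iso (a := c 0) (b := c 1) (c := c 2) (d := P) ?_ ?_ ?_ ?_ ?_ ?_ ?_ ?_ ?_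
  · intro v
    simp only [Set.mem_insert_iff, Set.mem_singleton_iff]
    tauto
  · exact (k1 _ c0 _ c1).2 h01
  · exact ((k2 _ c0).2 (Or.inr rfl)).symm
  · exact (k1 _ c0 _ cP).2 hP0.symm
  · exact ((k2 _ c1).2 (Or.inl rfl)).symm
  · rw [k1 _ c1 _ cP]
    exact fun h => hP1 h.symm
  · rw [k2 _ cP]
    rintro (h | h)
    · exact hP (h ▸ mem_C (by omega))
    · exact hP (h ▸ mem_C (by omega))
  · intro h; exact hP (h ▸ mem_C (by omega))
  · intro h; exact hP (h ▸ mem_C (by omega))

/-- an ear attached at two consecutive vertices of an induced cycle gives a subdivided diamond -/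
lemma Cyc.theta {c : ℕ → V} {n : ℕ} (h : Cyc K c n) {p : ℕ → V} {r : ℕ} {x y : V}
    (he : Ear K (C c n) p r x y) (hxy : (x = c 0 ∧ y = c 1) ∨ (x = c 1 ∧ y = c 0)) :
    IsSubdivision diamond (K.induce (C c n ∪ I p r)) := by
  have h3 := h.three
  obtain ⟨K1, k1, k2, k3⟩ := he.red_one
  apply k3
  have hc1 : Cyc K1 c n := h.congr k1
  have hP : p 1 ∉ C c n := he.out 1 le_rfl he.pos
  have hPadj : ∀ w ∈ C c n, (K1.Adj (p 1) w ↔ w = c 0 ∨ w = c 1) := by
    intro w hw
    rw [k2 w hw]
    rcases hxy with ⟨rfl, rfl⟩ | ⟨rfl, rfl⟩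
    · rfl
    · exact Or.comm
  obtain ⟨h1, h2⟩ := hc1.side hP (fun i hi hi' ha => by
    rcases (hPadj _ (mem_C hi')).1 ha with h | h
    · have := hc1.inj _ _ hi' (by omega) h; omega
    · have := hc1.inj _ _ hi' (by omega) h; omega)
  obtain ⟨K', m1, m2, m3⟩ := h1.red_one
  rw [← h2]
  apply m3
  have c0 : c 0 ∈ ({c 0, c 1, p 1} : Set V) := by simp
  have c1 : c 1 ∈ ({c 0, c 1, p 1} : Set V) := by simp
  have cP : p 1 ∈ ({c 0, c 1, p 1} : Set V) := by simp
  have hP0 : K1.Adj (p 1) (c 0) := (hPadj _ (mem_C (by omega))).2 (Or.inl rfl)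
  have hP1 : K1.Adj (p 1) (c 1) := (hPadj _ (mem_C (by omega))).2 (Or.inr rfl)
  have h01 : K1.Adj (c 0) (c 1) := (hc1.adj 0 1 (by omega) (by omega)).2 (Or.inl rfl)
  refine diamond_iso (a := c 0) (b := c 1) (c := c 2) (d := p 1) ?_ ?_ ?_ ?_ ?_ ?_ ?_ ?_
  · intro v
    simp only [Set.mem_insert_iff, Set.mem_singleton_iff]
    tauto
  · exact (m1 _ c0 _ c1).2 h01
  · exact ((m2 _ c0).2 (Or.inr rfl)).symm
  · exact (m1 _ c0 _ cP).2 hP0.symm
  · exact ((m2 _ c1).2 (Or.inl rfl)).symm
  · exact (m1 _ c1 _ cP).2 hP1.symm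
  · rw [m2 _ cP]
    rintro (h | h)
    · exact hP (h ▸ mem_C (by omega))
    · exact hP (h ▸ mem_C (by omega))
  · intro h; exact hP (h ▸ mem_C (by omega))

/-- an ear attached at two non-consecutive vertices of an induced cycle gives a subdivided
diamond -/
lemma Cyc.theta2 {c : ℕ → V} {n : ℕ} (h : Cyc K c n) {p : ℕ → V} {r k : ℕ} (hk : 2 ≤ k)
    (hkn : k + 2 ≤ n) (he : Ear K (C c n) p r (c 0) (c k)) :
    IsSubdivision diamond (K.induce (C c n ∪ I p r)) := by
  have h3 := h.three
  have hne : ∀ i j, i < n → j < n → i ≠ j → c i ≠ c j := fun i j hi hj hij he' =>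
    hij (h.inj i j hi hj he')
  have h0k : ¬ K.Adj (c 0) (c k) := by
    rw [h.adj 0 k (by omega) (by omega)]
    omega
  refine he.red_zero h0k _ ?_
  set K1 := addE K (c 0) (c k) with hK1
  have a1 : ∀ i j, i < j → j < n → (K1.Adj (c i) (c j) ↔ j = i + 1 ∨ (i = 0 ∧ j = n - 1) ∨
      (i = 0 ∧ j = k)) := by
    intro i j hij hj
    rw [hK1, addE_adj, h.adj i j hij hj]
    constructor
    · rintro ((h1 | h1) | ⟨_, h1 | h1⟩)
      · exact Or.inl h1
      · exact Or.inr (Or.inl h1)
      · exact Or.inr (Or.inr ⟨h.inj _ _ (by omega) (by omega) h1.1,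
          h.inj _ _ (by omega) (by omega) h1.2⟩)
      · have e1 := h.inj _ _ (by omega) (by omega) h1.1
        omega
    · rintro (h1 | h1 | h1)
      · exact Or.inl (Or.inl h1)
      · exact Or.inl (Or.inr h1)
      · exact Or.inr ⟨hne i j (by omega) hj (by omega), Or.inl ⟨by rw [h1.1], by rw [h1.2]⟩⟩
  -- the far side
  let D : Set V := {v | ∃ i, i ≤ k ∧ v = c i}
  have hB : Ear K1 D (fun i => c (k + i)) (n - 1 - k) (c k) (c 0) := by
    refine ⟨by omega, ⟨k, le_rfl, rfl⟩, ⟨0, by omega, rfl⟩, hne k 0 (by omega) (by omega) (by omega),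
      ?_, ?_, ?_, ?_⟩
    · intro i j h1 h2 h4 h5 he'
      have := h.inj _ _ (by omega) (by omega) he'
      omega
    · rintro i h1 h2 ⟨j, hj, hm⟩
      have := h.inj _ _ (by omega) (by omega) hm
      omega
    · rintro i h1 h2 w ⟨j, hj, rfl⟩
      rw [K1.adj_comm, a1 j (k + i) (by omega) (by omega)]
      constructor
      · rintro (h4 | h4 | h4)
        · exact Or.inl ⟨by omega, by congr 1; omega⟩
        · exact Or.inr ⟨by omega, by congr 1; omega⟩
        · omega
      · rintro (h4 | h4)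
        · have := h.inj _ _ (by omega) (by omega) h4.2
          omega
        · have := h.inj _ _ (by omega) (by omega) h4.2
          omega
    · intro i j h1 h2 h4
      rw [a1 _ _ (by omega) (by omega)]
      omega
  have hDI : D ∪ I (fun i => c (k + i)) (n - 1 - k) = C c n := by
    ext v
    constructor
    · rintro (⟨i, h1, rfl⟩ | ⟨i, h1, h2, rfl⟩)
      · exact mem_C (by omega)
      · exact mem_C (by omega)
    · rintro ⟨i, h1, rfl⟩
      by_cases h2 : i ≤ k
      · exact Or.inl ⟨i, h2, rfl⟩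
      · exact Or.inr ⟨i - k, by omega, by omega, by simp only; congr 1; omega⟩
  rw [← hDI]
  obtain ⟨K2, k1, k2, k3⟩ := hB.red_one
  apply k3
  -- the near side
  have hQ : c (k + 1) ∉ D := hB.out 1 le_rfl (by omega)
  have hA : Ear K2 {c 0, c k, c (k + 1)} c (k - 1) (c 0) (c k) := by
    refine ⟨by omega, by simp, by simp, hne 0 k (by omega) (by omega) (by omega), ?_, ?_, ?_, ?_⟩
    · intro i j h1 h2 h4 h5 he'
      exact h.inj _ _ (by omega) (by omega) he'
    · intro i h1 h2 hm
      simp only [Set.mem_insert_iff, Set.mem_singleton_iff] at hm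
      rcases hm with hm | hm | hm
      · have := h.inj _ _ (by omega) (by omega) hm; omega
      · have := h.inj _ _ (by omega) (by omega) hm; omega
      · have := h.inj _ _ (by omega) (by omega) hm; omega
    · rintro i h1 h2 w (rfl | rfl | rfl)
      · rw [k1 _ ⟨i, by omega, rfl⟩ _ ⟨0, by omega, rfl⟩, K1.adj_comm,
          a1 0 i (by omega) (by omega)]
        constructor
        · rintro (h4 | h4 | h4)
          · exact Or.inl ⟨by omega, rfl⟩
          · omega
          · omega
        · rintro (h4 | h4)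
          · exact Or.inl (by omega)
          · exact absurd h4.2 (hne 0 k (by omega) (by omega) (by omega))
      · rw [k1 _ ⟨i, by omega, rfl⟩ _ ⟨k, by omega, rfl⟩, a1 i k (by omega) (by omega)]
        constructor
        · rintro (h4 | h4 | h4)
          · exact Or.inr ⟨by omega, rfl⟩
          · omega
          · omega
        · rintro (h4 | h4)
          · exact absurd h4.2 (hne k 0 (by omega) (by omega) (by omega))
          · exact Or.inl (by omega)
      · rw [K2.adj_comm, k2 _ ⟨i, by omega, rfl⟩]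
        constructor
        · rintro (h4 | h4)
          · have := h.inj _ _ (by omega) (by omega) h4; omega
          · have := h.inj _ _ (by omega) (by omega) h4; omega
        · rintro (h4 | h4)
          · have := h.inj _ _ (by omega) (by omega) h4.2; omega
          · have := h.inj _ _ (by omega) (by omega) h4.2; omega
    · intro i j h1 h2 h4
      rw [k1 _ ⟨i, by omega, rfl⟩ _ ⟨j, by omega, rfl⟩, a1 i j h2 (by omega)]
      omega
  have hAI : {c 0, c k, c (k + 1)} ∪ I c (k - 1) = insert (c (k + 1)) D := by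
    ext v
    simp only [Set.mem_union, Set.mem_insert_iff, Set.mem_singleton_iff]
    constructor
    · rintro ((rfl | rfl | rfl) | ⟨i, h1, h2, rfl⟩)
      · exact Or.inr ⟨0, by omega, rfl⟩
      · exact Or.inr ⟨k, le_rfl, rfl⟩
      · exact Or.inl rfl
      · exact Or.inr ⟨i, by omega, rfl⟩
    · rintro (rfl | ⟨i, h1, rfl⟩)
      · exact Or.inl (Or.inr (Or.inr rfl))
      · by_cases h0 : i = 0
        · subst h0; exact Or.inl (Or.inl rfl)
        · by_cases h1' : i = k
          · subst h1'; exact Or.inl (Or.inr (Or.inl rfl))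
          · exact Or.inr ⟨i, by omega, by omega, rfl⟩
  rw [← hAI]
  obtain ⟨K3, m1, m2, m3⟩ := hA.red_one
  apply m3
  have c0 : c 0 ∈ ({c 0, c k, c (k + 1)} : Set V) := by simp
  have ck : c k ∈ ({c 0, c k, c (k + 1)} : Set V) := by simp
  have cq : c (k + 1) ∈ ({c 0, c k, c (k + 1)} : Set V) := by simp
  have d0 : c 0 ∈ D := ⟨0, by omega, rfl⟩
  have dk : c k ∈ D := ⟨k, le_rfl, rfl⟩
  refine diamond_iso (a := c 0) (b := c k) (c := c 1) (d := c (k + 1)) ?_ ?_ ?_ ?_ ?_ ?_ ?_ ?_
  · intro v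
    simp only [Set.mem_insert_iff, Set.mem_singleton_iff]
    tauto
  · rw [m1 _ c0 _ ck, k1 _ d0 _ dk, a1 0 k (by omega) (by omega)]
    exact Or.inr (Or.inr ⟨rfl, rfl⟩)
  · exact ((m2 _ c0).2 (Or.inl rfl)).symm
  · rw [m1 _ c0 _ cq, K2.adj_comm]
    exact (k2 _ d0).2 (Or.inr rfl)
  · exact ((m2 _ ck).2 (Or.inr rfl)).symm
  · rw [m1 _ ck _ cq, K2.adj_comm]
    exact (k2 _ dk).2 (Or.inl rfl)
  · rw [m2 _ cq]
    rintro (h4 | h4)
    · have := h.inj _ _ (by omega) (by omega) h4; omega
    · have := h.inj _ _ (by omega) (by omega) h4; omega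
  · exact hne 1 (k + 1) (by omega) (by omega) (by omega)

end Pool.Agent.X55.Itm
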