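import Pool.Agent.H175R2.Defs

/-!
# Induced topological minors (MP_d0d08e_co)
-/

namespace Pool.Agent.X55.Itm

open SimpleGraph Pool.Agent.H175R2

/-- Subdivide the edge `xy` of `G` once: the edge `xy` is replaced by a path of length two through
the new vertex `none`. -/
def subdivideEdge {V : Type} (G : SimpleGraph V) (x y : V) : SimpleGraph (Option V) where
  Adj u v := match u, v with
    | some a, some b => G.Adj a b ∧ ¬ (a = x ∧ b = y) ∧ ¬ (a = y ∧ b = x)
    | none, some b => b = x ∨ b = y
    | some a, none => a = x ∨ a = y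
    | none, none => False
  symm := ⟨by
    rintro (_ | a) (_ | b) h
    · exact h
    · exact h
    · exact h
    · exact ⟨h.1.symm, fun h' => h.2.2 ⟨h'.2, h'.1⟩, fun h' => h.2.1 ⟨h'.2, h'.1⟩⟩⟩
  loopless := ⟨by
    rintro (_ | a) h
    · exact h
    · exact G.irrefl h.1⟩

/-- `IsSubdivision H G`: the graph `G` is a subdivision of `H`, i.e. up to isomorphism `G` arises
from `H` by subdividing edges, one at a time (finitely often, possibly zero times). -/
inductive IsSubdivision {W : Type} (H : SimpleGraph W) : ∀ {V : Type}, SimpleGraph V → Prop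
  | iso {V : Type} (G : SimpleGraph V) : Nonempty (H ≃g G) → IsSubdivision H G
  | step {V V' : Type} (G : SimpleGraph V) (G' : SimpleGraph V') (x y : V) :
      IsSubdivision H G → G.Adj x y → Nonempty (subdivideEdge G x y ≃g G') → IsSubdivision H G'

/-- `H` is an induced topological minor of `G`: some induced subgraph of `G` is a subdivision of
`H`. -/
def IndTopMinor {W V : Type} (H : SimpleGraph W) (G : SimpleGraph V) : Prop :=
  ∃ S : Set V, IsSubdivision H (G.induce S)

/-- Clique-width is bounded on the class of the `H`-induced-topological-minor-free graphs. -/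
def BddItm {W : Type} (H : SimpleGraph W) : Prop :=
  ∃ c : ℕ, ∀ (V : Type) [Finite V] (G : SimpleGraph V), ¬ IndTopMinor H G → cliqueWidth G ≤ c

/-- the path on four vertices -/
def P4 : SimpleGraph (Fin 4) := SimpleGraph.fromRel (fun x y => x.val + 1 = y.val)

@[simp] lemma sub_some_some {V : Type} (G : SimpleGraph V) (x y a b : V) :
    (subdivideEdge G x y).Adj (some a) (some b) ↔
      G.Adj a b ∧ ¬ (a = x ∧ b = y) ∧ ¬ (a = y ∧ b = x) := Iff.rfl
@[simp] lemma sub_none_some {V : Type} (G : SimpleGraph V) (x y b : V) :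
    (subdivideEdge G x y).Adj none (some b) ↔ b = x ∨ b = y := Iff.rfl
@[simp] lemma sub_some_none {V : Type} (G : SimpleGraph V) (x y a : V) :
    (subdivideEdge G x y).Adj (some a) none ↔ a = x ∨ a = y := Iff.rfl
@[simp] lemma sub_none_none {V : Type} (G : SimpleGraph V) (x y : V) :
    (subdivideEdge G x y).Adj none none ↔ False := Iff.rfl

/-- a property of graphs closed under induced subgraphs and under undoing subdivisions -/
structure Closed (Q : ∀ {V : Type}, SimpleGraph V → Prop) : Prop where
  emb : ∀ {V V' : Type} (G : SimpleGraph V) (G' : SimpleGraph V'), (G ↪g G') → Q G' → Q G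
  sub : ∀ {V : Type} (G : SimpleGraph V) (x y : V), G.Adj x y → Q (subdivideEdge G x y) → Q G

lemma Closed.of_sub {Q : ∀ {V : Type}, SimpleGraph V → Prop} (hQ : Closed @Q) {W : Type}
    {H : SimpleGraph W} {V : Type} {G : SimpleGraph V} (h : IsSubdivision H G) : Q G → Q H := by
  induction h with
  | iso G e =>
    intro hG
    obtain ⟨e⟩ := e
    exact hQ.emb H G e.toEmbedding hG
  | step G G' x y _ hxy e ih =>
    intro hG
    obtain ⟨e⟩ := e
    exact ih (hQ.sub G x y hxy (hQ.emb _ _ e.toEmbedding hG))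

lemma Closed.of_itm {Q : ∀ {V : Type}, SimpleGraph V → Prop} (hQ : Closed @Q) {W : Type}
    {H : SimpleGraph W} {V : Type} {G : SimpleGraph V} (h : IndTopMinor H G) (hG : Q G) : Q H := by
  obtain ⟨S, hS⟩ := h
  exact hQ.of_sub hS (hQ.emb _ _ (Embedding.induce S) hG)

/-- unbounded families -/
lemma Closed.of_bdd {Q : ∀ {V : Type}, SimpleGraph V → Prop} (hQ : Closed @Q) {W : Type}
    {H : SimpleGraph W} (hb : BddItm H)
    (hF : ∀ c : ℕ, ∃ (V : Type) (_ : Finite V) (_ : Nonempty V) (G : SimpleGraph V),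
      Q G ∧ ∀ k ≤ c, ¬ CwLE G k)
    (hat : ∀ (V : Type) [Finite V] [Nonempty V] (G : SimpleGraph V), ∃ k, CwLE G k) : Q H := by
  by_contra hH
  obtain ⟨c, hc⟩ := hb
  obtain ⟨V, hfin, hne, G, hG, hk⟩ := hF c
  have h1 : ¬ IndTopMinor H G := fun h => hH (hQ.of_itm h hG)
  have h2 := hc V G h1
  exact hk _ h2 (Nat.sInf_mem (s := {k | CwLE G k}) (hat V G))

end Pool.Agent.X55.Itm
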