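import Pool.Agent.X55.Itm.Path

/-!
# 2-connected graphs without induced subdivision of the diamond
-/

namespace Pool.Agent.X55.Itm

open SimpleGraph Pool.Agent.H175R2

variable {V : Type} {G : SimpleGraph V}

lemma itm_of_induce {W : Type} {H : SimpleGraph W} {S : Set V}
    (h : IsSubdivision H (G.induce S)) : IndTopMinor H G := ⟨S, h⟩

/-- exactly two neighbours on the cycle -/
lemma dia_two {c : ℕ → V} {n : ℕ} (h : Cyc G c n) {r k : ℕ} {p : ℕ → V}
    (hk1 : 1 ≤ k) (hkn : k < n) (he : Ear G (C c n) p r (c 0) (c k)) :
    IndTopMinor diamond G := by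
  have h3 := h.three
  by_cases h1 : k = 1
  · subst h1
    exact itm_of_induce (h.theta he (Or.inl ⟨rfl, rfl⟩))
  · by_cases h2 : k = n - 1
    · have e0 : rot k c n 0 = c k := rot_zero hkn
      have e1 : rot k c n 1 = c 0 := by
        simp only [rot]
        rw [if_neg (by omega)]
        congr 1
        omega
      have hr := h.rot hkn
      rw [← C_rot hkn, ← e0, ← e1] at he
      exact itm_of_induce (hr.theta he (Or.inr ⟨rfl, rfl⟩))
    · exact itm_of_induce (h.theta2 (by omega) (by omega) he)

/-- a vertex outside a hole has at most one neighbour on it -/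
lemma dia_nb {c : ℕ → V} {n : ℕ} (hG : ¬ IndTopMinor diamond G) (h : Cyc G c n) (hn : 4 ≤ n)
    {v : V} (hv : v ∉ C c n) {i j : ℕ} (hi : i < n) (hj : j < n) (hij : i ≠ j)
    (hvi : G.Adj v (c i)) (hvj : G.Adj v (c j)) : False := by
  apply hG
  by_cases hall : ∀ k, k < n → G.Adj v (c k)
  · refine itm_of_induce (S := {x | x = v ∨ x = c 1 ∨ x = c 0 ∨ x = c 2})
      (diamond_iso (a := v) (b := c 1) (c := c 0) (d := c 2) (fun x => Iff.rfl)
        (hall 1 (by omega)) (hall 0 (by omega)) (hall 2 (by omega)) ?_ ?_ ?_ ?_)
    · exact ((h.adj 0 1 (by omega) (by omega)).2 (Or.inl rfl)).symm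
    · exact (h.adj 1 2 (by omega) (by omega)).2 (Or.inl rfl)
    · rw [h.adj 0 2 (by omega) (by omega)]
      omega
    · intro he
      have := h.inj 0 2 (by omega) (by omega) he
      omega
  · push Not at hall
    obtain ⟨k, hk, hvk⟩ := hall
    obtain ⟨s, hs, hs0, hsl⟩ := exists_start h hi hvi hk hvk
    -- pass to the rotated cycle
    have hd := h.rot hs
    have hCd : C (rot s c n) n = C c n := C_rot hs
    rw [← hCd] at hv
    have hnb : ∃ t, 1 ≤ t ∧ t < n ∧ G.Adj v (rot s c n t) := by
      have hi' : c i ∈ C (rot s c n) n := by rw [hCd]; exact mem_C hi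
      have hj' : c j ∈ C (rot s c n) n := by rw [hCd]; exact mem_C hj
      obtain ⟨a, ha, ea⟩ := hi'
      obtain ⟨b, hb, eb⟩ := hj'
      by_cases h0 : a = 0
      · refine ⟨b, ?_, hb, by rw [← eb]; exact hvj⟩
        by_contra hcon
        have hb0 : b = 0 := by omega
        rw [h0] at ea
        rw [hb0] at eb
        exact hij (h.inj i j hi hj (ea.trans eb.symm))
      · exact ⟨a, by omega, ha, by rw [← ea]; exact hvi⟩
    clear hCd hvi hvj hvk
    generalize rot s c n = d at *
    clear h
    classical
    obtain ⟨i1, i2, i3⟩ := Nat.find_spec hnb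
    have imin : ∀ t, 1 ≤ t → t < Nat.find hnb → ¬ G.Adj v (d t) := by
      intro t h1 h2 h4
      exact Nat.find_min hnb h2 ⟨h1, by omega, h4⟩
    set i0 := Nat.find hnb with hi0
    have hi0n : i0 < n - 1 := by
      by_contra hcon
      have : i0 = n - 1 := by omega
      rw [this] at i3
      exact hsl i3
    have hvne : ∀ t, t < n → d t ≠ v := fun t ht he => hv (he ▸ mem_C ht)
    by_cases hex : ∃ t, i0 < t ∧ t < n ∧ G.Adj v (d t)
    · obtain ⟨j1, j2, j3⟩ := Nat.find_spec hex
      have jmin : ∀ t, i0 < t → t < Nat.find hex → ¬ G.Adj v (d t) := by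
        intro t h1 h2 h4
        exact Nat.find_min hex h2 ⟨h1, by omega, h4⟩
      set j0 := Nat.find hex with hj0
      have hj0n : j0 < n - 1 := by
        by_contra hcon
        have : j0 = n - 1 := by omega
        rw [this] at j3
        exact hsl j3
      -- the cycle `v, d 0, …, d i0`
      have hcyc := cyc_of_path (G := G) (p := d) (s := 0) (t := i0) (b := v) (by omega)
        (fun u w _ h1 h2 => by rw [hd.adj u w h1 (by omega)]; omega)
        (fun u w _ _ h1 h2 h4 => hd.inj u w (by omega) (by omega) h4)
        (fun u _ hu => by
          constructor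
          · intro h4
            by_contra hcon
            rw [not_or] at hcon
            exact imin u (by omega) (by omega) h4
          · rintro (rfl | rfl)
            · exact hs0
            · exact i3)
        (fun u _ hu => hvne u (by omega))
      simp only [Nat.sub_zero, zero_add] at hcyc
      set e : ℕ → V := fun u => if u = 0 then v else d (u - 1) with he
      have hemem : ∀ w, w ∈ C e (i0 + 2) ↔ w = v ∨ ∃ t, t ≤ i0 ∧ w = d t := by
        intro w
        constructor
        · rintro ⟨t, ht, rfl⟩
          by_cases h0 : t = 0
          · left; simp [he, h0]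
          · right; exact ⟨t - 1, by omega, by simp [he, h0]⟩
        · rintro (rfl | ⟨t, ht, rfl⟩)
          · exact ⟨0, by omega, by simp [he]⟩
          · exact ⟨t + 1, by omega, by simp [he]⟩
      have hrot := hcyc.rot (s := i0 + 1) (by omega)
      have er0 : rot (i0 + 1) e (i0 + 2) 0 = d i0 := by
        rw [rot_zero (by omega)]
        simp [he]
      have er1 : rot (i0 + 1) e (i0 + 2) 1 = v := by
        simp only [rot]
        rw [if_neg (by omega)]
        have : 1 + (i0 + 1) - (i0 + 2) = 0 := by omega
        rw [this]
        simp [he]
      have hear : Ear G (C (rot (i0 + 1) e (i0 + 2)) (i0 + 2)) (fun t => d (i0 + t)) (j0 - i0)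
          (d i0) v := by
        rw [C_rot (by omega)]
        refine ⟨by omega, (hemem _).2 (Or.inr ⟨i0, le_rfl, rfl⟩), (hemem _).2 (Or.inl rfl),
          hvne i0 (by omega), ?_, ?_, ?_, ?_⟩
        · intro a b h1 h2 h4 h5 h6
          have := hd.inj _ _ (by omega) (by omega) h6
          omega
        · intro a h1 h2 hm
          rcases (hemem _).1 hm with hm | ⟨t, ht, hm⟩
          · exact hvne _ (by omega) hm
          · have := hd.inj _ _ (by omega) (by omega) hm
            omega
        · intro a h1 h2 w hw
          rcases (hemem _).1 hw with rfl | ⟨t, ht, rfl⟩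
          · rw [G.adj_comm]
            constructor
            · intro h4
              refine Or.inr ⟨?_, rfl⟩
              by_contra hcon
              exact jmin (i0 + a) (by omega) (by omega) h4
            · rintro (h4 | h4)
              · exact absurd h4.2.symm (hvne _ (by omega))
              · have : i0 + a = j0 := by omega
                rw [this]
                exact j3
          · rw [G.adj_comm, hd.adj t (i0 + a) (by omega) (by omega)]
            constructor
            · rintro (h4 | h4)
              · exact Or.inl ⟨by omega, by congr 1; omega⟩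
              · omega
            · rintro (h4 | h4)
              · have := hd.inj _ _ (by omega) (by omega) h4.2
                omega
              · exact absurd h4.2 (hvne _ (by omega))
        · intro a b h1 h2 h4
          rw [hd.adj _ _ (by omega) (by omega)]
          omega
      exact itm_of_induce (hrot.theta hear (Or.inl ⟨er0.symm, er1.symm⟩))
    · -- exactly two neighbours
      push Not at hex
      refine dia_two hd (k := i0) (r := 1) (p := fun _ => v) i1 (by omega) ?_
      refine ⟨le_rfl, mem_C (by omega), mem_C (by omega), ?_, ?_, ?_, ?_, ?_⟩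
      · intro he
        have := hd.inj _ _ (by omega) (by omega) he
        omega
      · intro a b h1 h2 h4 h5 _
        omega
      · intro a _ _
        exact hv
      · rintro a h1 h2 w ⟨t, ht, rfl⟩
        constructor
        · intro h4
          by_cases h0 : t = 0
          · left; exact ⟨by omega, by rw [h0]⟩
          · right
            refine ⟨by omega, ?_⟩
            by_cases h5 : t < i0
            · exact absurd h4 (imin t (by omega) h5)
            · by_cases h6 : t = i0
              · rw [h6]
              · exact absurd h4 (hex t (by omega) ht)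
        · rintro (h4 | h4)
          · rw [h4.2]; exact hs0
          · rw [h4.2]; exact i3
      · intro a b h1 h2 h4
        omega

open Finset Classical in
/-- the hole is everything -/
lemma dia_all [Fintype V] (hG : ¬ IndTopMinor diamond G) (hc : Cn G univ)
    (hdel : ∀ v, Cn G (univ.erase v)) {c : ℕ → V} {n : ℕ} (h : Cyc G c n) (hn : 4 ≤ n) (v : V) :
    v ∈ C c n := by
  by_contra hv
  -- the set of the cycle as a finset
  let CF : Finset V := univ.filter (fun v => v ∈ C c n)
  have hCF : ∀ v, v ∈ CF ↔ v ∈ C c n := by intro v; simp [CF]
  -- existence of an ear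
  have hex : ∃ r, 1 ≤ r ∧ ∃ (p : ℕ → V) (x y : V), x ∈ C c n ∧ y ∈ C c n ∧ x ≠ y ∧
      (∀ i, 1 ≤ i → i ≤ r → p i ∉ C c n) ∧ (∀ i, 1 ≤ i → i < r → G.Adj (p i) (p (i + 1))) ∧
      G.Adj (p 1) x ∧ G.Adj (p r) y := by
    obtain ⟨x, hx, u, hu, hxu⟩ := hc.2 CF (subset_univ _) ⟨c 0, (hCF _).2 (mem_C (by omega))⟩
      ⟨v, mem_sdiff.2 ⟨mem_univ _, fun h' => hv ((hCF v).1 h')⟩⟩
    have hxC : x ∈ C c n := (hCF x).1 hx
    have huU : u ∈ univ \ CF := hu
    let D := cpt G (univ \ CF) u
    have huD : u ∈ D := mem_cpt_self huU
    have hDU : D ⊆ univ \ CF := cpt_subset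
    have hxD : x ∉ D := fun h' => (mem_sdiff.1 (hDU h')).2 hx
    -- another vertex of the cycle
    obtain ⟨z, hz, hzx⟩ : ∃ z ∈ C c n, z ≠ x := by
      by_cases h0 : c 0 = x
      · refine ⟨c 1, mem_C (by omega), fun h1 => ?_⟩
        have := h.inj 0 1 (by omega) (by omega) (h0.trans h1.symm)
        omega
      · exact ⟨c 0, mem_C (by omega), h0⟩
    obtain ⟨d, hd, y, hy, hdy⟩ := (hdel x).2 D
      (fun w hw => mem_erase.2 ⟨fun h' => hxD (h' ▸ hw), mem_univ _⟩) ⟨u, huD⟩
      ⟨z, mem_sdiff.2 ⟨mem_erase.2 ⟨hzx, mem_univ _⟩, fun h' =>
        (mem_sdiff.1 (hDU h')).2 ((hCF z).2 hz)⟩⟩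
    obtain ⟨hy1, hy2⟩ := mem_sdiff.1 hy
    have hyx : y ≠ x := (mem_erase.1 hy1).1
    have hyC : y ∈ C c n := by
      by_contra hyC
      have : y ∈ univ \ CF := mem_sdiff.2 ⟨mem_univ _, fun h' => hyC ((hCF y).1 h')⟩
      exact not_adj_cpt huU hd this hy2 hdy
    obtain ⟨m, p, h0, hm, hS, hp⟩ := pth_exists (cn_cpt huU) huD hd
    refine ⟨m + 1, by omega, fun i => p (i - 1), x, y, hxC, hyC, hyx.symm, ?_, ?_, ?_, ?_⟩
    · intro i h1 h2 h4
      have := hDU (hS (i - 1) (by omega))
      exact (mem_sdiff.1 this).2 ((hCF _).2 h4)
    · intro i h1 h2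
      have := hp (i - 1) (by omega)
      have e : i - 1 + 1 = i + 1 - 1 := by omega
      rw [e] at this
      exact this
    · simp only [Nat.sub_self, h0]
      exact hxu.symm
    · simp only [Nat.add_sub_cancel, hm]
      exact hdy
  obtain ⟨hr1, p, x, y, hx, hy, hxy, hp1, hp2, hpx, hpy⟩ := Nat.find_spec hex
  have hmin := fun r' (hr' : r' < Nat.find hex) => Nat.find_min hex hr'
  set r := Nat.find hex with hr
  -- neighbours on the cycle are unique
  have uniq : ∀ v, v ∉ C c n → ∀ a ∈ C c n, ∀ b ∈ C c n, G.Adj v a → G.Adj v b → a = b := by
    rintro v hv _ ⟨i, hi, rfl⟩ _ ⟨j, hj, rfl⟩ h1 h2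
    by_contra hne
    exact dia_nb hG h hn hv hi hj (fun e => hne (by rw [e])) h1 h2
  have hr2 : 2 ≤ r := by
    by_contra hcon
    have : r = 1 := by omega
    rw [this] at hpy
    exact hxy (uniq _ (hp1 1 le_rfl hr1) x hx y hy hpx hpy)
  have hear : Ear G (C c n) p r x y := by
    refine ⟨hr1, hx, hy, hxy, ?_, hp1, ?_, ?_⟩
    · have key : ∀ i j, 1 ≤ i → i < j → j ≤ r → p i = p j → False := by
        intro i j h1 hij hj he
        apply hmin (r - (j - i)) (by omega)
        refine ⟨by omega, fun t => if t ≤ i then p t else p (t + (j - i)), x, y, hx, hy, hxy,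
          ?_, ?_, ?_, ?_⟩
        · intro t h2 h4
          simp only
          split_ifs with h5
          · exact hp1 t h2 (by omega)
          · exact hp1 _ (by omega) (by omega)
        · intro t h2 ht
          simp only
          by_cases h5 : t + 1 ≤ i
          · rw [if_pos (by omega), if_pos h5]
            exact hp2 t h2 (by omega)
          · rw [if_neg h5]
            by_cases h' : t ≤ i
            · rw [if_pos h']
              have e1 : t = i := by omega
              have e2 : t + 1 + (j - i) = j + 1 := by omega
              rw [e2, e1, he]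
              exact hp2 j (by omega) (by omega)
            · rw [if_neg h']
              have e : t + 1 + (j - i) = (t + (j - i)) + 1 := by omega
              rw [e]
              exact hp2 _ (by omega) (by omega)
        · simp only
          rw [if_pos h1]
          exact hpx
        · simp only
          split_ifs with h5
          · have e1 : r - (j - i) = i := by omega
            have e2 : j = r := by omega
            rw [e1, he, e2]
            exact hpy
          · have e1 : r - (j - i) + (j - i) = r := by omega
            rw [e1]
            exact hpy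
      intro i j h1 h2 h4 h5 he
      rcases lt_trichotomy i j with h6 | h6 | h6
      · exact (key i j h1 h6 h5 he).elim
      · exact h6
      · exact (key j i h4 h6 h2 he.symm).elim
    · intro i h1 h2 w hw
      constructor
      · intro hadj
        by_cases hi1 : i = 1
        · subst hi1
          exact Or.inl ⟨rfl, uniq _ (hp1 1 h1 h2) w hw x hx hadj hpx⟩
        · by_cases hir : i = r
          · subst hir
            exact Or.inr ⟨rfl, uniq _ (hp1 _ h1 h2) w hw y hy hadj hpy⟩
          · exfalso
            by_cases hwx : w = x
            · subst hwx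
              apply hmin (r - (i - 1)) (by omega)
              refine ⟨by omega, fun t => p (t + (i - 1)), w, y, hx, hy, hxy, ?_, ?_, ?_, ?_⟩
              · intro t h4 h5
                exact hp1 _ (by omega) (by omega)
              · intro t h4 h5
                have e : t + 1 + (i - 1) = (t + (i - 1)) + 1 := by omega
                simp only
                rw [e]
                exact hp2 _ (by omega) (by omega)
              · have e : 1 + (i - 1) = i := by omega
                simp only
                rw [e]
                exact hadj
              · have e : r - (i - 1) + (i - 1) = r := by omega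
                simp only
                rw [e]
                exact hpy
            · apply hmin i (by omega)
              exact ⟨h1, p, x, w, hx, hw, fun e => hwx e.symm, fun t h4 h5 => hp1 t h4 (by omega),
                fun t h4 h5 => hp2 t h4 (by omega), hpx, hadj⟩
      · rintro (h4 | h4)
        · rw [h4.1, h4.2]; exact hpx
        · rw [h4.1, h4.2]; exact hpy
    · intro i j h1 hij hj
      constructor
      · intro hadj
        by_contra hne
        apply hmin (r - (j - i - 1)) (by omega)
        refine ⟨by omega, fun t => if t ≤ i then p t else p (t + (j - i - 1)), x, y, hx, hy, hxy,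
          ?_, ?_, ?_, ?_⟩
        · intro t h2 h4
          simp only
          split_ifs with h5
          · exact hp1 t h2 (by omega)
          · exact hp1 _ (by omega) (by omega)
        · intro t h2 ht
          simp only
          by_cases h5 : t + 1 ≤ i
          · rw [if_pos (by omega), if_pos h5]
            exact hp2 t h2 (by omega)
          · rw [if_neg h5]
            by_cases h' : t ≤ i
            · rw [if_pos h']
              have e1 : t = i := by omega
              have e2 : t + 1 + (j - i - 1) = j := by omega
              rw [e2, e1]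
              exact hadj
            · rw [if_neg h']
              have e : t + 1 + (j - i - 1) = (t + (j - i - 1)) + 1 := by omega
              rw [e]
              exact hp2 _ (by omega) (by omega)
        · simp only
          rw [if_pos h1]
          exact hpx
        · simp only
          rw [if_neg (by omega)]
          have e1 : r - (j - i - 1) + (j - i - 1) = r := by omega
          rw [e1]
          exact hpy
      · rintro rfl
        exact hp2 i h1 (by omega)
  -- rotate so that `x` is the first vertex
  obtain ⟨s, hs, rfl⟩ := hx
  have hrot := h.rot hs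
  have hCr : C (rot s c n) n = C c n := C_rot hs
  rw [← hCr] at hear hy
  obtain ⟨k, hk, rfl⟩ := hy
  have hk0 : k ≠ 0 := by
    rintro rfl
    exact hxy (rot_zero hs).symm
  rw [← rot_zero (c := c) hs] at hear
  exact hG (dia_two hrot (by omega) hk hear)

end Pool.Agent.X55.Itm
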