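import Pool.Agent.X55.Itm.Cyc
import Pool.Agent.H175R2.Conn

/-!
# Shortest paths and induced cycles
-/

namespace Pool.Agent.X55.Itm

open SimpleGraph Pool.Agent.H175R2 Finset Classical

variable {V : Type} {G : SimpleGraph V}

/-- a walk of length `m` inside `S` -/
def Pth (G : SimpleGraph V) (S : Finset V) (a b : V) (m : ℕ) : Prop :=
  ∃ p : ℕ → V, p 0 = a ∧ p m = b ∧ (∀ i ≤ m, p i ∈ S) ∧ ∀ i < m, G.Adj (p i) (p (i + 1))

lemma pth_exists {S : Finset V} (hS : Cn G S) {a b : V} (ha : a ∈ S) (hb : b ∈ S) :
    ∃ m, Pth G S a b m := by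
  let T := S.filter (fun v => ∃ m, Pth G S a v m)
  by_contra hcon
  have hbT : b ∉ T := by
    simp only [T, mem_filter, not_and]
    exact fun _ => hcon
  obtain ⟨x, hx, y, hy, hxy⟩ := hS.2 T (filter_subset _ _)
    ⟨a, mem_filter.2 ⟨ha, 0, fun _ => a, rfl, rfl, fun _ _ => ha, fun i hi => by omega⟩⟩
    ⟨b, mem_sdiff.2 ⟨hb, hbT⟩⟩
  obtain ⟨hyS, hyT⟩ := mem_sdiff.1 hy
  obtain ⟨hxS, m, p, h1, h2, h3, h4⟩ := mem_filter.1 hx
  apply hyT
  refine mem_filter.2 ⟨hyS, m + 1, fun i => if i ≤ m then p i else y, ?_, ?_, ?_, ?_⟩
  · simp [h1]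
  · simp
  · intro i hi
    simp only
    split_ifs with h
    · exact h3 i h
    · exact hyS
  · intro i hi
    simp only
    rw [if_pos (by omega)]
    split_ifs with h
    · exact h4 i (by omega)
    · have : i = m := by omega
      rw [this, h2]
      exact hxy

/-- shortest walks are induced paths -/
lemma pth_induced {S : Finset V} {a b : V} (h : ∃ m, Pth G S a b m) :
    ∃ (m : ℕ) (p : ℕ → V), p 0 = a ∧ p m = b ∧ (∀ i ≤ m, p i ∈ S) ∧
      (∀ i j, i < j → j ≤ m → (G.Adj (p i) (p j) ↔ j = i + 1)) ∧
      (∀ i j, i ≤ m → j ≤ m → p i = p j → i = j) := by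
  obtain ⟨p, h1, h2, h3, h4⟩ := Nat.find_spec h
  have hmin : ∀ m', m' < Nat.find h → ¬ Pth G S a b m' := fun m' hm' => Nat.find_min h hm'
  set m := Nat.find h with hm
  refine ⟨m, p, h1, h2, h3, ?_, ?_⟩
  · intro i j hij hj
    constructor
    · intro hadj
      by_contra hne
      apply hmin (m - (j - i - 1)) (by omega)
      refine ⟨fun t => if t ≤ i then p t else p (t + (j - i - 1)), ?_, ?_, ?_, ?_⟩
      · simp [h1]
      · simp only
        rw [if_neg (by omega), ← h2]
        congr 1
        omega
      · intro t ht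
        simp only
        split_ifs with h
        · exact h3 t (by omega)
        · exact h3 _ (by omega)
      · intro t ht
        simp only
        by_cases h : t + 1 ≤ i
        · rw [if_pos (by omega), if_pos h]
          exact h4 t (by omega)
        · rw [if_neg h]
          by_cases h' : t ≤ i
          · rw [if_pos h']
            have e1 : t = i := by omega
            have e2 : t + 1 + (j - i - 1) = j := by omega
            rw [e2, e1]
            exact hadj
          · rw [if_neg h']
            have e : t + 1 + (j - i - 1) = (t + (j - i - 1)) + 1 := by omega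
            rw [e]
            exact h4 _ (by omega)
    · rintro rfl
      exact h4 i (by omega)
  · -- injectivity
    have key : ∀ i j, i < j → j ≤ m → p i = p j → False := by
      intro i j hij hj he
      apply hmin (m - (j - i)) (by omega)
      refine ⟨fun t => if t ≤ i then p t else p (t + (j - i)), ?_, ?_, ?_, ?_⟩
      · simp [h1]
      · simp only
        split_ifs with h
        · have e1 : m - (j - i) = i := by omega
          rw [e1, he, ← h2]
          congr 1
          omega
        · rw [← h2]
          congr 1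
          omega
      · intro t ht
        simp only
        split_ifs with h
        · exact h3 t (by omega)
        · exact h3 _ (by omega)
      · intro t ht
        simp only
        by_cases h : t + 1 ≤ i
        · rw [if_pos (by omega), if_pos h]
          exact h4 t (by omega)
        · rw [if_neg h]
          by_cases h' : t ≤ i
          · rw [if_pos h']
            have e1 : t = i := by omega
            have e2 : t + 1 + (j - i) = j + 1 := by omega
            rw [e2, e1, he]
            exact h4 j (by omega)
          · rw [if_neg h']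
            have e : t + 1 + (j - i) = (t + (j - i)) + 1 := by omega
            rw [e]
            exact h4 _ (by omega)
    intro i j hi hj he
    rcases lt_trichotomy i j with h | h | h
    · exact (key i j h hj he).elim
    · exact h
    · exact (key j i h hi he.symm).elim

/-- a vertex closing an induced path to an induced cycle -/
lemma cyc_of_path {p : ℕ → V} {s t : ℕ} {b : V} (hst : s < t)
    (hadj : ∀ i j, s ≤ i → i < j → j ≤ t → (G.Adj (p i) (p j) ↔ j = i + 1))
    (hinj : ∀ i j, s ≤ i → s ≤ j → i ≤ t → j ≤ t → p i = p j → i = j)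
    (hb : ∀ i, s ≤ i → i ≤ t → (G.Adj b (p i) ↔ i = s ∨ i = t))
    (hbp : ∀ i, s ≤ i → i ≤ t → p i ≠ b) :
    Cyc G (fun u => if u = 0 then b else p (s + u - 1)) (t - s + 2) := by
  refine ⟨by omega, ?_, ?_⟩
  · intro i j hi hj he
    split_ifs at he with h1 h2 h2
    · rw [h1, h2]
    · exact absurd he.symm (hbp _ (by omega) (by omega))
    · exact absurd he (hbp _ (by omega) (by omega))
    · have := hinj _ _ (by omega) (by omega) (by omega) (by omega) he
      omega
  · intro i j hij hj
    rw [if_neg (show j ≠ 0 by omega)]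
    split_ifs with h1
    · rw [hb _ (by omega) (by omega)]
      omega
    · rw [hadj _ _ (by omega) (by omega) (by omega)]
      omega

/-- a connected graph without cut vertices which is not complete contains a hole or a diamond -/
lemma hole_or_diamond [Fintype V] (hc : Cn G univ)
    (hdel : ∀ v, Cn G (univ.erase v)) {a c : V}
    (hac : a ≠ c) (hn : ¬ G.Adj a c) :
    (∃ (c : ℕ → V) (n : ℕ), 4 ≤ n ∧ Cyc G c n) ∨
      ∃ a b c d, G.Adj a b ∧ G.Adj a c ∧ G.Adj a d ∧ G.Adj b c ∧ G.Adj b d ∧ ¬ G.Adj c d ∧
        c ≠ d := by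
  obtain ⟨m, p, p0, pm, _, hadj, hinj⟩ := pth_induced (pth_exists hc (mem_univ a) (mem_univ c))
  have hm : 2 ≤ m := by
    by_contra hcon
    push Not at hcon
    interval_cases m
    · exact hac (p0.symm.trans pm)
    · apply hn
      rw [← p0, ← pm]
      exact (hadj 0 1 (by omega) le_rfl).2 rfl
  have h01 : G.Adj (p 0) (p 1) := (hadj 0 1 (by omega) (by omega)).2 rfl
  have h12 : G.Adj (p 1) (p 2) := (hadj 1 2 (by omega) (by omega)).2 rfl
  have h02 : ¬ G.Adj (p 0) (p 2) := fun h => by
    have := (hadj 0 2 (by omega) (by omega)).1 h; omega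
  have n02 : p 0 ≠ p 2 := fun h => by have := hinj 0 2 (by omega) (by omega) h; omega
  obtain ⟨k, q, q0, qk, qS, qadj, qinj⟩ := pth_induced (pth_exists (hdel (p 1))
    (mem_erase.2 ⟨h01.ne, mem_univ _⟩) (mem_erase.2 ⟨h12.ne.symm, mem_univ (p 2)⟩))
  have hqb : ∀ i ≤ k, q i ≠ p 1 := fun i hi => (mem_erase.1 (qS i hi)).1
  have hk : 2 ≤ k := by
    by_contra hcon
    push Not at hcon
    interval_cases k
    · exact n02 (q0.symm.trans qk)
    · apply h02
      rw [← q0, ← qk]
      exact (qadj 0 1 (by omega) le_rfl).2 rfl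
  have hb0 : G.Adj (p 1) (q 0) := by rw [q0]; exact h01.symm
  have hbk : G.Adj (p 1) (q k) := by rw [qk]; exact h12
  have hex : ∃ i, 1 ≤ i ∧ i ≤ k ∧ G.Adj (p 1) (q i) := ⟨k, by omega, le_rfl, hbk⟩
  obtain ⟨i1, i2, i3⟩ := Nat.find_spec hex
  have imin : ∀ j, 1 ≤ j → j ≤ k → j < Nat.find hex → ¬ G.Adj (p 1) (q j) := by
    intro j h1 h2 h3 h4
    exact Nat.find_min hex h3 ⟨h1, h2, h4⟩
  set i := Nat.find hex with hi
  by_cases hi2 : 2 ≤ i
  · left
    refine ⟨_, _, ?_, cyc_of_path (G := G) (p := q) (s := 0) (t := i) (b := p 1) (by omega)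
      (fun u v _ h1 h2 => qadj u v h1 (by omega)) (fun u v _ _ h1 h2 h3 => qinj u v (by omega)
        (by omega) h3) ?_ (fun u _ h1 => hqb u (by omega))⟩
    · omega
    · intro u _ hu
      constructor
      · intro h
        by_contra hcon
        rw [not_or] at hcon
        exact imin u (by omega) (by omega) (by omega) h
      · rintro (rfl | rfl)
        · exact hb0
        · exact i3
  · have hi1 : i = 1 := by omega
    rw [hi1] at i3
    have hex2 : ∃ j, 2 ≤ j ∧ j ≤ k ∧ G.Adj (p 1) (q j) := ⟨k, hk, le_rfl, hbk⟩
    obtain ⟨j1, j2, j3⟩ := Nat.find_spec hex2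
    have jmin : ∀ j, 2 ≤ j → j ≤ k → j < Nat.find hex2 → ¬ G.Adj (p 1) (q j) := by
      intro j h1 h2 h3 h4
      exact Nat.find_min hex2 h3 ⟨h1, h2, h4⟩
    set j := Nat.find hex2 with hj
    by_cases hj2 : j = 2
    · right
      rw [hj2] at j3
      refine ⟨p 1, q 1, q 0, q 2, i3, hb0, j3, ((qadj 0 1 (by omega) (by omega)).2 rfl).symm,
        (qadj 1 2 (by omega) (by omega)).2 rfl, ?_, ?_⟩
      · intro h
        have := (qadj 0 2 (by omega) (by omega)).1 h
        omega
      · intro h
        have := qinj 0 2 (by omega) (by omega) h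
        omega
    · left
      refine ⟨_, _, ?_, cyc_of_path (G := G) (p := q) (s := 1) (t := j) (b := p 1) (by omega)
        (fun u v _ h1 h2 => qadj u v h1 (by omega)) (fun u v _ _ h1 h2 h3 => qinj u v (by omega)
          (by omega) h3) ?_ (fun u _ h1 => hqb u (by omega))⟩
      · omega
      · intro u hu1 hu
        constructor
        · intro h
          by_contra hcon
          rw [not_or] at hcon
          exact jmin u (by omega) (by omega) (by omega) h
        · rintro (rfl | rfl)
          · exact i3
          · exact j3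

/-- choose the starting vertex of the cycle at the beginning of a block of neighbours of `v` -/
lemma exists_start {c : ℕ → V} {n : ℕ} (h : Cyc G c n) {v : V} {i j : ℕ} (hi : i < n)
    (hvi : G.Adj v (c i)) (hj : j < n) (hvj : ¬ G.Adj v (c j)) :
    ∃ s, s < n ∧ G.Adj v (rot s c n 0) ∧ ¬ G.Adj v (rot s c n (n - 1)) := by
  by_contra hcon
  push Not at hcon
  have h3 := h.three
  have e0 : ∀ s, s < n → rot s c n 0 = c s := fun s hs => rot_zero hs
  have e1 : ∀ s, 1 ≤ s → s < n → rot s c n (n - 1) = c (s - 1) := by
    intro s h1 h2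
    simp only [rot]
    rw [if_neg (by omega)]
    congr 1
    omega
  have e2 : rot 0 c n (n - 1) = c (n - 1) := by
    simp only [rot]
    rw [if_pos (by omega)]
    rfl
  have down : ∀ k, k ≤ i → G.Adj v (c (i - k)) := by
    intro k
    induction k with
    | zero => intro _; exact hvi
    | succ k ih =>
      intro hk
      have h1 := ih (by omega)
      have h2 := hcon (i - k) (by omega) (by rw [e0 _ (by omega)]; exact h1)
      rw [e1 _ (by omega) (by omega)] at h2
      have : i - (k + 1) = i - k - 1 := by omega
      rw [this]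
      exact h2
  have h0 : G.Adj v (c 0) := by
    have := down i le_rfl
    rwa [Nat.sub_self] at this
  have hl : G.Adj v (c (n - 1)) := by
    have := hcon 0 (by omega) (by rw [e0 _ (by omega)]; exact h0)
    rwa [e2] at this
  have all : ∀ k, k ≤ n - 1 → G.Adj v (c (n - 1 - k)) := by
    intro k
    induction k with
    | zero => intro _; exact hl
    | succ k ih =>
      intro hk
      have h1 := ih (by omega)
      have h2 := hcon (n - 1 - k) (by omega) (by rw [e0 _ (by omega)]; exact h1)
      rw [e1 _ (by omega) (by omega)] at h2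
      have : n - 1 - (k + 1) = n - 1 - k - 1 := by omega
      rw [this]
      exact h2
  apply hvj
  have := all (n - 1 - j) (by omega)
  have e : n - 1 - (n - 1 - j) = j := by omega
  rwa [e] at this

end Pool.Agent.X55.Itm
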