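import Pool.Agent.X55.Itm.Dia
import Pool.Agent.H175R2.Width

/-!
# 2-connected graphs without induced subdivision of the paw
-/

namespace Pool.Agent.X55.Itm

open SimpleGraph Pool.Agent.H175R2 Finset Classical

variable {V : Type} {G : SimpleGraph V}

/-- non-adjacency is transitive on `M` -/
def Cmp (G : SimpleGraph V) (M : Finset V) : Prop :=
  ∀ x ∈ M, ∀ y ∈ M, ∀ z ∈ M, ¬ G.Adj x y → ¬ G.Adj y z → ¬ G.Adj x z

lemma paw_ind (hG : ¬ IndTopMinor paw G) {a b c d : V} (hab : G.Adj a b) (hac : G.Adj a c)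
    (hbc : G.Adj b c) (had : G.Adj a d) (hdb : ¬ G.Adj d b) (hdc : ¬ G.Adj d c) (n1 : d ≠ b)
    (n2 : d ≠ c) : False :=
  hG (itm_of_induce (S := {x | x = a ∨ x = b ∨ x = c ∨ x = d})
    (paw_iso (a := a) (b := b) (c := c) (d := d) (fun _ => Iff.rfl) hab hac had hbc
      (fun h => hdb h.symm) (fun h => hdc h.symm) n2.symm n1.symm))

lemma paw_c4 (hG : ¬ IndTopMinor paw G) {a b c d v : V} (hab : G.Adj a b) (hbc : G.Adj b c)
    (hcd : G.Adj c d) (hda : G.Adj d a) (hac : ¬ G.Adj a c) (hbd : ¬ G.Adj b d) (n1 : a ≠ c)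
    (n2 : b ≠ d) (hva : G.Adj v a) (hvb : ¬ G.Adj v b) (hvc : ¬ G.Adj v c) (hvd : ¬ G.Adj v d)
    (m1 : v ≠ b) (m2 : v ≠ c) (m3 : v ≠ d) : False := by
  let f : ℕ → V := fun i => if i = 0 then a else if i = 1 then b else if i = 2 then c else d
  have f0 : f 0 = a := rfl
  have f1 : f 1 = b := rfl
  have f2 : f 2 = c := rfl
  have f3 : f 3 = d := rfl
  have hcyc : Cyc G f 4 := by
    refine ⟨by omega, ?_, ?_⟩
    · intro i j hi hj he
      interval_cases i <;> interval_cases j <;> first | rfl | exfalso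
      · exact hab.ne he
      · exact n1 he
      · exact hda.ne he.symm
      · exact hab.ne he.symm
      · exact hbc.ne he
      · exact n2 he
      · exact n1 he.symm
      · exact hbc.ne he.symm
      · exact hcd.ne he
      · exact hda.ne he
      · exact n2 he.symm
      · exact hcd.ne he.symm
    · intro i j hij hj
      interval_cases j
      · omega
      · interval_cases i
        rw [f0, f1]; simp [hab]
      · interval_cases i
        · rw [f0, f2]; simp [hac]
        · rw [f1, f2]; simp [hbc]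
      · interval_cases i
        · rw [f0, f3]; simp [hda.symm]
        · rw [f1, f3]; simp [hbd]
        · rw [f2, f3]; simp [hcd]
  apply hG
  refine itm_of_induce (hcyc.paw (P := v) ?_ ?_)
  · rintro ⟨i, hi, he⟩
    interval_cases i
    · exact hva.ne he
    · exact m1 he
    · exact m2 he
    · exact m3 he
  · intro i hi
    interval_cases i
    · rw [f0]; simp [hva]
    · rw [f1]; simp [hvb]
    · rw [f2]; simp [hvc]
    · rw [f3]; simp [hvd]

/-- the extension step -/
lemma cmp_insert {M : Finset V} (hM : Cmp G M) {v : V}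
    (h1 : ∀ x ∈ M, ∀ y ∈ M, ¬ G.Adj v x → ¬ G.Adj v y → ¬ G.Adj x y)
    (h2 : ∀ x ∈ M, ∀ y ∈ M, ¬ G.Adj v x → ¬ G.Adj x y → ¬ G.Adj v y) : Cmp G (insert v M) := by
  intro x hx y hy z hz hxy hyz
  rw [mem_insert] at hx hy hz
  rcases hx with rfl | hx
  · rcases hy with rfl | hy
    · exact hyz
    · rcases hz with rfl | hz
      · exact G.irrefl
      · exact h2 y hy z hz hxy hyz
  · rcases hy with rfl | hy
    · rcases hz with rfl | hz
      · exact hxy
      · exact h1 x hx z hz (fun h => hxy h.symm) hyz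
    · rcases hz with rfl | hz
      · exact fun h => h2 y hy x hx (fun h' => hyz h'.symm) (fun h' => hxy h'.symm) h.symm
      · exact hM x hx y hy z hz hxy hyz

/-- if a connected paw-itm-free graph contains a triangle or an induced 4-cycle (and no triangle)
then it is complete multipartite -/
lemma paw_cmp [Fintype V] (hG : ¬ IndTopMinor paw G) (hc : Cn G univ) (T : Finset V)
    (hT : Cmp G T)
    (ht : (∃ a ∈ T, ∃ b ∈ T, ∃ c ∈ T, G.Adj a b ∧ G.Adj b c ∧ G.Adj a c) ∨
      ((∀ a b c, G.Adj a b → G.Adj b c → ¬ G.Adj a c) ∧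
        ∃ a ∈ T, ∃ b ∈ T, ∃ c ∈ T, ∃ d ∈ T, a ≠ c ∧ b ≠ d ∧ G.Adj a b ∧ G.Adj b c ∧ G.Adj c d ∧
          G.Adj d a ∧ ¬ G.Adj a c ∧ ¬ G.Adj b d)) : Cmp G univ := by
  obtain ⟨M, hM⟩ := ((univ : Finset (Finset V)).filter (fun M => Cmp G M ∧ T ⊆ M)).exists_maximal
    ⟨T, by simp [hT]⟩
  have hM1 := hM.prop
  simp only [mem_filter, mem_univ, true_and] at hM1
  obtain ⟨hMc, hTM⟩ := hM1
  by_cases hMu : M = univ
  · rw [← hMu]; exact hMc
  exfalso
  have hMne : M.Nonempty := by
    rcases ht with ⟨a, ha, _⟩ | ⟨_, a, ha, _⟩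
    · exact ⟨a, hTM ha⟩
    · exact ⟨a, hTM ha⟩
  obtain ⟨m, hm, v, hv, hmv⟩ := hc.2 M (subset_univ _) hMne (by
    rw [sdiff_nonempty]
    intro h
    exact hMu (subset_antisymm (subset_univ _) h))
  have hvM : v ∉ M := (mem_sdiff.1 hv).2
  have hvne : ∀ x ∈ M, v ≠ x := fun x hx h => hvM (h ▸ hx)
  have hcon : Cmp G (insert v M) → False := by
    intro h
    have := hM.le_of_ge (y := insert v M) (by
      simp only [mem_filter, mem_univ, true_and]
      exact ⟨h, hTM.trans (subset_insert _ _)⟩) (subset_insert _ _)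
    exact hvM (this (mem_insert_self _ _))
  apply hcon
  rcases ht with ⟨a, ha, b, hb, c, hc', hab, hbc, hac⟩ | ⟨htri, a, ha, b, hb, c, hc', d, hd, nac, nbd,
    hab, hbc, hcd, hda, hac, hbd⟩
  · -- a triangle: for all `x y ∈ M` there is `z ∈ M` adjacent to both
    have ha' := hTM ha
    have hb' := hTM hb
    have hc'' := hTM hc'
    have third : ∀ x ∈ M, ∀ y ∈ M, ∃ z ∈ M, G.Adj z x ∧ G.Adj z y := by
      intro x hx y hy
      by_contra hno
      push Not at hno
      have k : ∀ z ∈ M, ¬ G.Adj z x ∨ ¬ G.Adj z y := by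
        intro z hz
        by_cases h : G.Adj z x
        · exact Or.inr (hno z hz h)
        · exact Or.inl h
      have two : ∀ w ∈ M, ∀ z ∈ M, ∀ u ∈ M, ¬ G.Adj w u → ¬ G.Adj z u → ¬ G.Adj w z := by
        intro w hw z hz u hu h1 h2
        exact hMc w hw u hu z hz h1 (fun h => h2 h.symm)
      rcases k a ha' with h1 | h1 <;> rcases k b hb' with h2 | h2 <;> rcases k c hc'' with h3 | h3
      · exact two a ha' b hb' x hx h1 h2 hab
      · exact two a ha' b hb' x hx h1 h2 hab
      · exact two a ha' c hc'' x hx h1 h3 hac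
      · exact two b hb' c hc'' y hy h2 h3 hbc
      · exact two b hb' c hc'' x hx h2 h3 hbc
      · exact two a ha' c hc'' y hy h1 h3 hac
      · exact two a ha' b hb' y hy h1 h2 hab
      · exact two a ha' b hb' y hy h1 h2 hab
    have one : ∀ x ∈ M, ∀ y ∈ M, ¬ G.Adj v x → ¬ G.Adj v y → ¬ G.Adj x y := by
      -- first the case where `m` is adjacent to `y` only
      have aux : ∀ x ∈ M, ∀ y ∈ M, ¬ G.Adj v x → ¬ G.Adj v y → G.Adj x y → ¬ G.Adj m x →
          G.Adj m y → False := by
        intro x hx y hy hvx hvy hxy hmx hmy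
        obtain ⟨z, hz, hzx, hzy⟩ := third x hx y hy
        have hzm : G.Adj z m := by
          by_contra h
          exact hMc z hz m hm x hx h hmx hzx
        by_cases hvz : G.Adj v z
        · exact paw_ind hG hzx hzy hxy hvz.symm hvx hvy (hvne x hx) (hvne y hy)
        · exact paw_ind hG hmy hzm.symm hzy.symm hmv hvy hvz (hvne y hy) (hvne z hz)
      intro x hx y hy hvx hvy hxy
      by_cases hmx : G.Adj m x
      · by_cases hmy : G.Adj m y
        · exact paw_ind hG hmx hmy hxy hmv hvx hvy (hvne x hx) (hvne y hy)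
        · exact aux y hy x hx hvy hvx hxy.symm hmy hmx
      · by_cases hmy : G.Adj m y
        · exact aux x hx y hy hvx hvy hxy hmx hmy
        · exact hMc x hx m hm y hy (fun h => hmx h.symm) hmy hxy
    refine cmp_insert hMc one ?_
    intro x hx y hy hvx hxy hvy
    by_cases hxe : x = y
    · exact hvx (hxe ▸ hvy)
    obtain ⟨z, hz, hzx, hzy⟩ := third x hx y hy
    have hvz : G.Adj v z := by
      by_contra h
      exact one z hz x hx h hvx hzx
    exact paw_ind hG hvz.symm hzy hvy hzx (fun h => hvx h.symm) hxy (hvne x hx).symm hxe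
  · -- an induced 4-cycle, no triangles
    have ha' := hTM ha
    have hb' := hTM hb
    have hc'' := hTM hc'
    have hd' := hTM hd
    -- two distinct vertices adjacent to a given one
    have two : ∀ x ∈ M, ∃ p ∈ M, ∃ q ∈ M, p ≠ q ∧ G.Adj p x ∧ G.Adj q x := by
      intro x hx
      by_cases hax : G.Adj a x
      · have hcx : G.Adj c x := by
          by_contra h
          exact hMc a ha' c hc'' x hx hac h hax
        exact ⟨a, ha', c, hc'', nac, hax, hcx⟩
      · have hbx : G.Adj b x := by
          by_contra h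
          exact hMc a ha' x hx b hb' hax (fun h' => h h'.symm) hab
        have hdx : G.Adj d x := by
          by_contra h
          exact hMc b hb' d hd' x hx hbd h hbx
        exact ⟨b, hb', d, hd', nbd, hbx, hdx⟩
    have main : ∀ x ∈ M, (G.Adj v x ↔ ¬ G.Adj x m) := by
      intro x hx
      constructor
      · intro h h'
        exact htri v x m h h' hmv.symm
      · intro hxm
        by_contra hvx
        have hxne : x ≠ m := fun h => hvx (h ▸ hmv.symm)
        obtain ⟨p, hp, q, hq, hpq, hpm, hqm⟩ := two m hm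
        have hpx : G.Adj p x := by
          by_contra h
          exact hMc p hp x hx m hm h hxm hpm
        have hqx : G.Adj q x := by
          by_contra h
          exact hMc q hq x hx m hm h hxm hqm
        have hpq' : ¬ G.Adj p q := htri p x q hpx hqx.symm
        exact paw_c4 hG hpm.symm hpx hqx.symm hqm (fun h => hxm h.symm) hpq' hxne.symm hpq
          hmv.symm (fun h => htri v p m h hpm hmv.symm) hvx (fun h => htri v q m h hqm hmv.symm)
          (hvne p hp) (hvne x hx) (hvne q hq)
    refine cmp_insert hMc ?_ ?_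
    · intro x hx y hy hvx hvy hxy
      rw [main x hx, not_not] at hvx
      rw [main y hy, not_not] at hvy
      exact htri x y m hxy hvy hvx
    · intro x hx y hy hvx hxy hvy
      rw [main x hx, not_not] at hvx
      rw [main y hy] at hvy
      exact hMc x hx y hy m hm hxy hvy hvx

lemma p4free_of_cmp [Fintype V] (h : Cmp G univ) : P4Free G univ := by
  intro a _ b _ c _ d _ hac had hbd hab hbc hcd
  by_contra hcon
  push Not at hcon
  exact h b (mem_univ _) d (mem_univ _) a (mem_univ _) hcon.2.2 (fun h' => hcon.2.1 h'.symm)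
    hab.symm

/-- no triangle and no induced 4-cycle: a shortest induced cycle is everything -/
lemma paw_all [Fintype V] (hG : ¬ IndTopMinor paw G) (hc : Cn G univ)
    (htri : ∀ a b c, G.Adj a b → G.Adj b c → ¬ G.Adj a c)
    (hC4 : ∀ a b c d, a ≠ c → b ≠ d → G.Adj a b → G.Adj b c → G.Adj c d → G.Adj d a →
      G.Adj a c ∨ G.Adj b d)
    (hcyc : ∃ n c, Cyc G c n) : ∃ n c, Cyc G c n ∧ ∀ v, v ∈ C c n := by
  obtain ⟨c, h⟩ := Nat.find_spec hcyc
  have hmin : ∀ n' c', Cyc G c' n' → Nat.find hcyc ≤ n' := fun n' c' h' =>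
    Nat.find_min' hcyc ⟨c', h'⟩
  set n := Nat.find hcyc with hn
  refine ⟨n, c, h, ?_⟩
  have h3 := h.three
  have hn5 : 5 ≤ n := by
    by_contra hcon
    have h01 := (h.adj 0 1 (by omega) (by omega)).2 (Or.inl rfl)
    have h12 := (h.adj 1 2 (by omega) (by omega)).2 (Or.inl rfl)
    by_cases h4 : n = 3
    · have h02 := (h.adj 0 2 (by omega) (by omega)).2 (Or.inr ⟨rfl, by omega⟩)
      exact htri _ _ _ h01 h12 h02
    · have hn4 : n = 4 := by omega
      have h23 := (h.adj 2 3 (by omega) (by omega)).2 (Or.inl rfl)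
      have h03 := (h.adj 0 3 (by omega) (by omega)).2 (Or.inr ⟨rfl, by omega⟩)
      rcases hC4 _ _ _ _ (fun he => by have := h.inj 0 2 (by omega) (by omega) he; omega)
        (fun he => by have := h.inj 1 3 (by omega) (by omega) he; omega) h01 h12 h23 h03.symm with
        h5 | h5
      · rw [h.adj 0 2 (by omega) (by omega)] at h5; omega
      · rw [h.adj 1 3 (by omega) (by omega)] at h5; omega
  intro v
  by_contra hv
  let CF : Finset V := univ.filter (fun v => v ∈ C c n)
  have hCF : ∀ v, v ∈ CF ↔ v ∈ C c n := by intro v; simp [CF]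
  obtain ⟨x, hx, u, hu, hxu⟩ := hc.2 CF (subset_univ _) ⟨c 0, (hCF _).2 (mem_C (by omega))⟩
    ⟨v, mem_sdiff.2 ⟨mem_univ _, fun h' => hv ((hCF v).1 h')⟩⟩
  have huC : u ∉ C c n := fun h' => (mem_sdiff.1 hu).2 ((hCF u).2 h')
  obtain ⟨i, hi, rfl⟩ := (hCF x).1 hx
  by_cases hone : ∃ j, j < n ∧ j ≠ i ∧ G.Adj u (c j)
  · obtain ⟨j, hj, hji, huj⟩ := hone
    -- some vertex of the cycle is not a neighbour
    obtain ⟨k, hk, huk⟩ : ∃ k, k < n ∧ ¬ G.Adj u (c k) := by
      by_contra hall
      push Not at hall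
      exact htri u (c 0) (c 1) (hall 0 (by omega))
        ((h.adj 0 1 (by omega) (by omega)).2 (Or.inl rfl)) (hall 1 (by omega))
    obtain ⟨s, hs, hs0, hsl⟩ := exists_start h hi hxu.symm hk huk
    have hd := h.rot hs
    have hCd : C (rot s c n) n = C c n := C_rot hs
    have hnb : ∃ t, 1 ≤ t ∧ t < n ∧ G.Adj u (rot s c n t) := by
      have hi' : c i ∈ C (rot s c n) n := by rw [hCd]; exact mem_C hi
      have hj' : c j ∈ C (rot s c n) n := by rw [hCd]; exact mem_C hj
      obtain ⟨a, ha, ea⟩ := hi'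
      obtain ⟨b, hb, eb⟩ := hj'
      by_cases h0 : a = 0
      · refine ⟨b, ?_, hb, by rw [← eb]; exact huj⟩
        by_contra hcon
        have hb0 : b = 0 := by omega
        rw [h0] at ea
        rw [hb0] at eb
        exact hji (h.inj j i hj hi (eb.trans ea.symm))
      · exact ⟨a, by omega, ha, by rw [← ea]; exact hxu.symm⟩
    rw [← hCd] at huC
    generalize rot s c n = d at *
    obtain ⟨i1, i2, i3⟩ := Nat.find_spec hnb
    have imin : ∀ t, 1 ≤ t → t < Nat.find hnb → ¬ G.Adj u (d t) := by
      intro t h1 h2 h4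
      exact Nat.find_min hnb h2 ⟨h1, by omega, h4⟩
    set i0 := Nat.find hnb with hi0
    have hi0n : i0 < n - 1 := by
      by_contra hcon
      have : i0 = n - 1 := by omega
      rw [this] at i3
      exact hsl i3
    have hcyc' := cyc_of_path (G := G) (p := d) (s := 0) (t := i0) (b := u) (by omega)
      (fun a w _ h1 h2 => by rw [hd.adj a w h1 (by omega)]; omega)
      (fun a w _ _ h1 h2 h4 => hd.inj a w (by omega) (by omega) h4)
      (fun a _ ha => by
        constructor
        · intro h4
          by_contra hcon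
          rw [not_or] at hcon
          exact imin a (by omega) (by omega) h4
        · rintro (rfl | rfl)
          · exact hs0
          · exact i3)
      (fun a _ ha he => huC (he ▸ mem_C (by omega)))
    have hle := hmin _ _ hcyc'
    have hi0e : i0 = n - 2 := by omega
    rw [hi0e] at i3
    have e1 := (hd.adj (n - 2) (n - 1) (by omega) (by omega)).2 (Or.inl (by omega))
    have e2 := (hd.adj 0 (n - 1) (by omega) (by omega)).2 (Or.inr ⟨rfl, rfl⟩)
    rcases hC4 u (d (n - 2)) (d (n - 1)) (d 0) (fun he => huC (he ▸ mem_C (by omega)))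
      (fun he => by have := hd.inj _ _ (by omega) (by omega) he; omega) i3 e1 e2.symm hs0.symm with
      h5 | h5
    · exact hsl h5
    · rw [G.adj_comm, hd.adj 0 (n - 2) (by omega) (by omega)] at h5
      omega
  · push Not at hone
    -- exactly one neighbour: a subdivided paw
    have hr := h.rot hi
    have hCr : C (rot i c n) n = C c n := C_rot hi
    rw [← hCr] at huC
    refine hG (itm_of_induce (hr.paw huC ?_))
    intro t ht
    constructor
    · intro hut
      by_contra ht0
      obtain ⟨a, ha, ea⟩ : rot i c n t ∈ C c n := by rw [← hCr]; exact mem_C ht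
      have hai : a = i := by
        by_contra hne
        exact hone a ha hne (by rw [← ea]; exact hut)
      rw [hai, ← rot_zero (c := c) hi] at ea
      have := hr.inj t 0 ht (by omega) ea
      exact ht0 this
    · rintro rfl
      rw [rot_zero hi]
      exact hxu.symm

/-- 2-connected graphs without induced subdivision of the paw -/
theorem paw_str [Fintype V] (hG : ¬ IndTopMinor paw G) (hc : Cn G univ)
    (hdel : ∀ v, Cn G (univ.erase v)) : P4Free G univ ∨ ∃ n c, Cyc G c n ∧ ∀ v, v ∈ C c n := by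
  by_cases hcomp : ∀ a b, a ≠ b → G.Adj a b
  · left
    intro a _ b _ c _ d _ hac _ _ _ _ _
    exact Or.inl (hcomp a c hac)
  push Not at hcomp
  obtain ⟨x, y, hxy, hnxy⟩ := hcomp
  by_cases htri : ∃ a b c, G.Adj a b ∧ G.Adj b c ∧ G.Adj a c
  · left
    obtain ⟨a, b, c, hab, hbc, hac⟩ := htri
    refine p4free_of_cmp (paw_cmp hG hc {a, b, c} ?_
      (Or.inl ⟨a, by simp, b, by simp, c, by simp, hab, hbc, hac⟩))
    intro x hx y hy z hz hxy hyz
    simp only [mem_insert, mem_singleton] at hx hy hz
    have hba := hab.symm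
    have hcb := hbc.symm
    have hca := hac.symm
    rcases hx with rfl | rfl | rfl <;> rcases hy with rfl | rfl | rfl <;>
      rcases hz with rfl | rfl | rfl <;> first | exact G.irrefl | exact hxy | exact hyz | contradiction
  · push Not at htri
    by_cases hC4 : ∃ a b c d, a ≠ c ∧ b ≠ d ∧ G.Adj a b ∧ G.Adj b c ∧ G.Adj c d ∧ G.Adj d a ∧
        ¬ G.Adj a c ∧ ¬ G.Adj b d
    · left
      obtain ⟨a, b, c, d, n1, n2, hab, hbc, hcd, hda, hac, hbd⟩ := hC4
      refine p4free_of_cmp (paw_cmp hG hc {a, b, c, d} ?_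
        (Or.inr ⟨htri, a, by simp, b, by simp, c, by simp, d, by simp, n1, n2, hab, hbc, hcd, hda,
          hac, hbd⟩))
      have hba := hab.symm
      have hcb := hbc.symm
      have hdc := hcd.symm
      have had := hda.symm
      have hca : ¬ G.Adj c a := fun h => hac h.symm
      have hdb : ¬ G.Adj d b := fun h => hbd h.symm
      intro x hx y hy z hz hxy hyz
      simp only [mem_insert, mem_singleton] at hx hy hz
      rcases hx with rfl | rfl | rfl | rfl <;> rcases hy with rfl | rfl | rfl | rfl <;>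
        rcases hz with rfl | rfl | rfl | rfl <;>
        first | exact G.irrefl | exact hxy | exact hyz | contradiction
    · right
      push Not at hC4
      apply paw_all hG hc htri
      · intro a b c d n1 n2 hab hbc hcd hda
        by_contra hcon
        rw [not_or] at hcon
        exact hcon.2 (hC4 a b c d n1 n2 hab hbc hcd hda hcon.1)
      · rcases hole_or_diamond hc hdel hxy hnxy with ⟨c, n, _, h⟩ | ⟨a, b, c, d, hab, hac, _, hbc, _⟩
        · exact ⟨n, c, h⟩
        · exact absurd hac (htri a b c hab hbc)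

/-- 2-connected graphs without induced subdivision of the diamond -/
theorem dia_str [Fintype V] (hG : ¬ IndTopMinor diamond G) (hc : Cn G univ)
    (hdel : ∀ v, Cn G (univ.erase v)) : P4Free G univ ∨ ∃ n c, Cyc G c n ∧ ∀ v, v ∈ C c n := by
  by_cases hcomp : ∀ a b, a ≠ b → G.Adj a b
  · left
    intro a _ b _ c _ d _ hac _ _ _ _ _
    exact Or.inl (hcomp a c hac)
  push Not at hcomp
  obtain ⟨x, y, hxy, hnxy⟩ := hcomp
  right
  rcases hole_or_diamond hc hdel hxy hnxy with ⟨c, n, hn, h⟩ | ⟨a, b, c, d, hab, hac, had, hbc, hbd, hcd, hne⟩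
  · exact ⟨n, c, h, fun v => dia_all hG hc hdel h hn v⟩
  · exact absurd (itm_of_induce (S := {x | x = a ∨ x = b ∨ x = c ∨ x = d})
      (diamond_iso (a := a) (b := b) (c := c) (d := d) (fun _ => Iff.rfl) hab hac had hbc hbd hcd
        hne)) hG

end Pool.Agent.X55.Itm
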