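import Pool.Agent.X55.Itm.Defs

/-!
# Building induced topological minors
-/

namespace Pool.Agent.X55.Itm

open SimpleGraph Pool.Agent.H175R2

section mono

lemma IsSubdivision.congr {W V V' : Type} {H : SimpleGraph W} {G : SimpleGraph V}
    {G' : SimpleGraph V'} (h : IsSubdivision H G) (e : G ≃g G') : IsSubdivision H G' := by
  cases h with
  | iso G f =>
    obtain ⟨f⟩ := f
    exact .iso _ ⟨f.trans e⟩
  | step G1 _ x y h1 hxy f =>
    obtain ⟨f⟩ := f
    exact .step G1 _ x y h1 hxy ⟨f.trans e⟩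

lemma itm_iff {W V : Type} {H : SimpleGraph W} {G : SimpleGraph V} :
    IndTopMinor H G ↔ ∃ (V1 : Type) (G1 : SimpleGraph V1), IsSubdivision H G1 ∧ G1 ⊴ G := by
  constructor
  · rintro ⟨S, hS⟩
    exact ⟨_, _, hS, ⟨Embedding.induce S⟩⟩
  · rintro ⟨V1, G1, h, ⟨e⟩⟩
    refine ⟨Set.range e, h.congr ?_⟩
    refine ⟨Equiv.ofInjective e e.injective, ?_⟩
    intro a b
    simp only [comap_adj, Equiv.ofInjective_apply, Function.Embedding.subtype_apply]
    exact e.map_adj_iff

lemma IndTopMinor.mono_right {W V V' : Type} {H : SimpleGraph W} {G : SimpleGraph V}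
    {G' : SimpleGraph V'} (h : IndTopMinor H G) (e : G ⊴ G') : IndTopMinor H G' := by
  rw [itm_iff] at h ⊢
  obtain ⟨V1, G1, h1, h2⟩ := h
  exact ⟨V1, G1, h1, h2.trans e⟩

lemma sub_mono {W W' V : Type} {H : SimpleGraph W} {H' : SimpleGraph W'} {G : SimpleGraph V}
    (e : H ⊴ H') (h : IsSubdivision H' G) :
    ∃ (V1 : Type) (G1 : SimpleGraph V1), IsSubdivision H G1 ∧ G1 ⊴ G := by
  induction h with
  | iso G f =>
    obtain ⟨f⟩ := f
    exact ⟨W, H, .iso _ ⟨Iso.refl⟩, e.trans ⟨f.toEmbedding⟩⟩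
  | step G G' x y _ hxy f ih =>
    obtain ⟨f⟩ := f
    obtain ⟨V1, G1, h1, ⟨g⟩⟩ := ih
    by_cases hc : ∃ x1 y1, g x1 = x ∧ g y1 = y
    · obtain ⟨x1, y1, rfl, rfl⟩ := hc
      refine ⟨Option V1, subdivideEdge G1 x1 y1, .step G1 _ x1 y1 h1 (g.map_adj_iff.1 hxy)
        ⟨Iso.refl⟩, IsIndContained.trans ⟨?_⟩ ⟨f.toEmbedding⟩⟩
      refine ⟨⟨Option.map g, Option.map_injective g.injective⟩, ?_⟩
      rintro (_ | a) (_ | b)
      · simp
      · simp [g.injective.eq_iff]
      · simp [g.injective.eq_iff]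
      · simp [g.injective.eq_iff]
    · refine ⟨V1, G1, h1, IsIndContained.trans ⟨?_⟩ ⟨f.toEmbedding⟩⟩
      refine ⟨⟨fun a => some (g a), fun a b hab => g.injective (Option.some.inj hab)⟩, ?_⟩
      intro a b
      change (subdivideEdge _ x y).Adj (some (g a)) (some (g b)) ↔ _
      rw [sub_some_some, g.map_adj_iff]
      constructor
      · exact fun h => h.1
      · intro h
        refine ⟨h, fun h' => hc ⟨a, b, h'⟩, fun h' => hc ⟨b, a, h'.2, h'.1⟩⟩

lemma IndTopMinor.mono_left {W W' V : Type} {H : SimpleGraph W} {H' : SimpleGraph W'}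
    {G : SimpleGraph V} (e : H ⊴ H') (h : IndTopMinor H' G) : IndTopMinor H G := by
  obtain ⟨S, hS⟩ := h
  obtain ⟨V1, G1, h1, h2⟩ := sub_mono e hS
  exact itm_iff.2 ⟨V1, G1, h1, h2.trans ⟨Embedding.induce S⟩⟩

lemma BddItm.mono {W W' : Type} {H : SimpleGraph W} {H' : SimpleGraph W'} (e : H ⊴ H')
    (h : BddItm H') : BddItm H := by
  obtain ⟨c, hc⟩ := h
  exact ⟨c, fun V _ G hG => hc V G (fun h => hG (h.mono_left e))⟩

end mono

variable {W V : Type} {H : SimpleGraph W} {K K' : SimpleGraph V}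

/-- `IsSubdivision H (K.induce S)` depends only on `K` inside `S` -/
lemma sub_congr {S S' : Set V} (hS : S = S') (hK : ∀ u ∈ S, ∀ v ∈ S, (K.Adj u v ↔ K'.Adj u v))
    (h : IsSubdivision H (K.induce S)) : IsSubdivision H (K'.induce S') := by
  subst hS
  have : K.induce S = K'.induce S := by
    ext ⟨u, hu⟩ ⟨v, hv⟩
    simpa using hK u hu v hv
  rwa [← this]

/-- add one edge -/
def addE (K : SimpleGraph V) (x y : V) : SimpleGraph V :=
  K ⊔ SimpleGraph.fromRel (fun u v => u = x ∧ v = y)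

lemma addE_adj (K : SimpleGraph V) (x y u v : V) :
    (addE K x y).Adj u v ↔ K.Adj u v ∨ (u ≠ v ∧ ((u = x ∧ v = y) ∨ (v = x ∧ u = y))) := by
  simp [addE]

/-- undoing a subdivision inside a fixed vertex set -/
lemma smooth {S : Set V} {x y z : V} (hz : z ∉ S) (hx : x ∈ S) (hy : y ∈ S) (hxy : x ≠ y)
    (hn : ¬ K.Adj x y) (hN : ∀ w ∈ S, (K.Adj z w ↔ w = x ∨ w = y))
    (h : IsSubdivision H ((addE K x y).induce S)) : IsSubdivision H (K.induce (insert z S)) := by
  classical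
  refine .step _ _ ⟨x, hx⟩ ⟨y, hy⟩ h ?_ ⟨?_⟩
  · change (addE K x y).Adj x y
    rw [addE_adj]
    exact Or.inr ⟨hxy, Or.inl ⟨rfl, rfl⟩⟩
  · let f : Option S → (insert z S : Set V) := fun o =>
      match o with
      | none => ⟨z, by simp⟩
      | some a => ⟨a.1, Set.mem_insert_of_mem _ a.2⟩
    have hf : Function.Bijective f := by
      constructor
      · rintro (_ | a) (_ | b) hab
        · rfl
        · exact absurd (Subtype.ext_iff.1 hab) (fun h => hz (by rw [show z = b.1 from h]; exact b.2))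
        · exact absurd (Subtype.ext_iff.1 hab) (fun h => hz (by rw [← show a.1 = z from h]; exact a.2))
        · have : a.1 = b.1 := (Subtype.ext_iff (a1 := f (some a)) (a2 := f (some b))).1 hab
          rw [Subtype.ext this]
      · rintro ⟨v, rfl | hv⟩
        · exact ⟨none, rfl⟩
        · exact ⟨some ⟨v, hv⟩, rfl⟩
    refine ⟨Equiv.ofBijective f hf, ?_⟩
    rintro (_ | ⟨a, ha⟩) (_ | ⟨b, hb⟩)
    · simp [f]
    · simp only [Equiv.ofBijective_apply, f, comap_adj, Function.Embedding.subtype_apply,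
        sub_none_some, Subtype.mk.injEq]
      exact hN b hb
    · simp only [Equiv.ofBijective_apply, f, comap_adj, Function.Embedding.subtype_apply,
        sub_some_none, Subtype.mk.injEq]
      rw [K.adj_comm]
      exact hN a ha
    · simp only [Equiv.ofBijective_apply, f, comap_adj, Function.Embedding.subtype_apply,
        sub_some_some, Subtype.mk.injEq, addE_adj]
      constructor
      · intro hab
        refine ⟨Or.inl hab, ?_, ?_⟩
        · rintro ⟨rfl, rfl⟩; exact hn hab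
        · rintro ⟨rfl, rfl⟩; exact hn hab.symm
      · rintro ⟨h1 | ⟨_, h1 | h1⟩, h2, h3⟩
        · exact h1
        · exact absurd h1 h2
        · exact absurd ⟨h1.2, h1.1⟩ h3

/-- an ear: a path with interior vertices `p 1, …, p r` outside `T` from `x ∈ T` to `y ∈ T` -/
structure Ear (K : SimpleGraph V) (T : Set V) (p : ℕ → V) (r : ℕ) (x y : V) : Prop where
  pos : 1 ≤ r
  hx : x ∈ T
  hy : y ∈ T
  hxy : x ≠ y
  inj : ∀ i j, 1 ≤ i → i ≤ r → 1 ≤ j → j ≤ r → p i = p j → i = j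
  out : ∀ i, 1 ≤ i → i ≤ r → p i ∉ T
  adjT : ∀ i, 1 ≤ i → i ≤ r → ∀ w ∈ T, (K.Adj (p i) w ↔ (i = 1 ∧ w = x) ∨ (i = r ∧ w = y))
  adjI : ∀ i j, 1 ≤ i → i < j → j ≤ r → (K.Adj (p i) (p j) ↔ j = i + 1)

/-- interior of an ear -/
def I (p : ℕ → V) (r : ℕ) : Set V := {v | ∃ i, 1 ≤ i ∧ i ≤ r ∧ v = p i}

lemma I_succ (p : ℕ → V) (r : ℕ) : I p (r + 1) = insert (p (r + 1)) (I p r) := by
  ext v
  simp only [I, Set.mem_insert_iff, Set.mem_ofPred_eq]
  constructor
  · rintro ⟨i, h1, h2, rfl⟩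
    by_cases h : i = r + 1
    · left; rw [h]
    · right; exact ⟨i, h1, by omega, rfl⟩
  · rintro (rfl | ⟨i, h1, h2, rfl⟩)
    · exact ⟨r + 1, by omega, le_rfl, rfl⟩
    · exact ⟨i, h1, by omega, rfl⟩

lemma I_one (p : ℕ → V) : I p 1 = {p 1} := by
  ext v
  simp only [I, Set.mem_ofPred_eq, Set.mem_singleton_iff]
  constructor
  · rintro ⟨i, h1, h2, rfl⟩
    have : i = 1 := by omega
    rw [this]
  · rintro rfl
    exact ⟨1, le_rfl, le_rfl, rfl⟩

/-- one reduction step -/
lemma Ear.step {T : Set V} {p : ℕ → V} {r : ℕ} {x y : V} (h : Ear K T p (r + 1) x y)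
    (hr : 1 ≤ r) : Ear (addE K (p r) y) T p r x y ∧
      (∀ u ∈ T, ∀ v ∈ T, ((addE K (p r) y).Adj u v ↔ K.Adj u v)) ∧
      ∀ {W : Type} (H : SimpleGraph W), IsSubdivision H ((addE K (p r) y).induce (T ∪ I p r)) →
        IsSubdivision H (K.induce (T ∪ I p (r + 1))) := by
  have hT : ∀ u ∈ T, ∀ v ∈ T, ((addE K (p r) y).Adj u v ↔ K.Adj u v) := by
    intro u hu v hv
    rw [addE_adj]
    constructor
    · rintro (h1 | ⟨_, h1 | h1⟩)
      · exact h1
      · exact absurd (h1.1 ▸ hu) (h.out r hr (by omega))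
      · exact absurd (h1.1 ▸ hv) (h.out r hr (by omega))
    · exact Or.inl
  refine ⟨⟨hr, h.hx, h.hy, h.hxy, ?_, ?_, ?_, ?_⟩, hT, ?_⟩
  · intro i j h1 h2 h3 h4
    exact h.inj i j h1 (by omega) h3 (by omega)
  · intro i h1 h2
    exact h.out i h1 (by omega)
  · intro i h1 h2 w hw
    rw [addE_adj, h.adjT i h1 (by omega) w hw]
    constructor
    · rintro ((h3 | h3) | ⟨_, h3 | h3⟩)
      · exact Or.inl h3
      · omega
      · exact Or.inr ⟨h.inj i r h1 (by omega) hr (by omega) h3.1, h3.2⟩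
      · exact absurd (h3.1 ▸ hw) (h.out r hr (by omega))
    · rintro (h3 | h3)
      · exact Or.inl (Or.inl h3)
      · refine Or.inr ⟨?_, Or.inl ⟨by rw [h3.1], h3.2⟩⟩
        rintro rfl
        exact h.out i h1 (by omega) hw
  · intro i j h1 h2 h3
    rw [addE_adj, h.adjI i j h1 h2 (by omega)]
    constructor
    · rintro (h4 | ⟨_, h4 | h4⟩)
      · exact h4
      · exact absurd (h4.2 ▸ h.hy) (h.out j (by omega) (by omega))
      · exact absurd (h4.2 ▸ h.hy) (h.out i h1 (by omega))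
    · exact Or.inl
  · intro W H hs
    have e : T ∪ I p (r + 1) = insert (p (r + 1)) (T ∪ I p r) := by
      rw [I_succ, Set.union_insert]
    rw [e]
    refine smooth (x := p r) (y := y) ?_ (Or.inr ⟨r, hr, le_rfl, rfl⟩) (Or.inl h.hy) ?_ ?_ ?_ hs
    · rintro (h1 | ⟨i, h1, h2, h3⟩)
      · exact h.out (r + 1) (by omega) le_rfl h1
      · have := h.inj (r + 1) i (by omega) le_rfl h1 (by omega) h3
        omega
    · intro h1
      exact h.out r hr (by omega) (h1 ▸ h.hy)
    · rw [h.adjT r hr (by omega) y h.hy]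
      rintro (h1 | h1)
      · exact h.hxy h1.2.symm
      · omega
    · rintro w (hw | ⟨i, h1, h2, rfl⟩)
      · rw [h.adjT (r + 1) (by omega) le_rfl w hw]
        constructor
        · rintro (h1 | h1)
          · omega
          · exact Or.inr h1.2
        · rintro (h1 | h1)
          · exact absurd (h1 ▸ hw) (h.out r hr (by omega))
          · exact Or.inr ⟨rfl, h1⟩
      · rw [K.adj_comm, h.adjI i (r + 1) h1 (by omega) le_rfl]
        constructor
        · intro h3
          have : i = r := by omega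
          exact Or.inl (by rw [this])
        · rintro (h3 | h3)
          · have := h.inj i r h1 (by omega) hr (by omega) h3
            omega
          · exact absurd (h3 ▸ h.hy) (h.out i h1 (by omega))

/-- reduce an ear to one interior vertex -/
lemma Ear.red_one {T : Set V} {p : ℕ → V} {r : ℕ} {x y : V} (h : Ear K T p r x y) :
    ∃ K' : SimpleGraph V, (∀ u ∈ T, ∀ v ∈ T, (K'.Adj u v ↔ K.Adj u v)) ∧
      (∀ w ∈ T, (K'.Adj (p 1) w ↔ w = x ∨ w = y)) ∧
      ∀ {W : Type} (H : SimpleGraph W), IsSubdivision H (K'.induce (insert (p 1) T)) →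
        IsSubdivision H (K.induce (T ∪ I p r)) := by
  obtain ⟨s, rfl⟩ : ∃ s, r = s + 1 := ⟨r - 1, by have := h.pos; omega⟩
  induction s generalizing K with
  | zero =>
    refine ⟨K, fun _ _ _ _ => Iff.rfl, ?_, ?_⟩
    · intro w hw
      rw [h.adjT 1 le_rfl le_rfl w hw]
      simp
    · intro W H hs
      refine sub_congr ?_ (fun _ _ _ _ => Iff.rfl) hs
      rw [zero_add, I_one, Set.union_singleton]
  | succ s ih =>
    obtain ⟨h1, h2, h3⟩ := h.step (by omega)
    obtain ⟨K', k1, k2, k3⟩ := ih h1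
    refine ⟨K', fun u hu v hv => (k1 u hu v hv).trans (h2 u hu v hv), k2, ?_⟩
    intro W H hs
    exact h3 H (k3 H hs)

/-- replace an ear by an edge -/
lemma Ear.red_zero {T : Set V} {p : ℕ → V} {r : ℕ} {x y : V} (h : Ear K T p r x y)
    (hn : ¬ K.Adj x y) {W : Type} (H : SimpleGraph W)
    (hs : IsSubdivision H ((addE K x y).induce T)) : IsSubdivision H (K.induce (T ∪ I p r)) := by
  obtain ⟨K', k1, k2, k3⟩ := h.red_one
  refine k3 H (smooth (x := x) (y := y) (h.out 1 le_rfl h.pos) h.hx h.hy h.hxy ?_ k2 ?_)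
  · rw [k1 x h.hx y h.hy]
    exact hn
  · refine sub_congr rfl ?_ hs
    intro u hu v hv
    rw [addE_adj, addE_adj, k1 u hu v hv]

lemma Ear.rev {T : Set V} {p : ℕ → V} {r : ℕ} {x y : V} (h : Ear K T p r x y) :
    Ear K T (fun i => p (r + 1 - i)) r y x ∧ I (fun i => p (r + 1 - i)) r = I p r := by
  refine ⟨⟨h.pos, h.hy, h.hx, h.hxy.symm, ?_, ?_, ?_, ?_⟩, ?_⟩
  · intro i j h1 h2 h3 h4 h5
    have := h.inj _ _ (by omega) (by omega) (by omega) (by omega) h5
    omega
  · intro i h1 h2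
    exact h.out _ (by omega) (by omega)
  · intro i h1 h2 w hw
    rw [h.adjT _ (by omega) (by omega) w hw]
    have e1 : r + 1 - i = 1 ↔ i = r := by omega
    have e2 : r + 1 - i = r ↔ i = 1 := by omega
    rw [e1, e2]
    exact Or.comm
  · intro i j h1 h2 h3
    rw [K.adj_comm, h.adjI _ _ (by omega) (by omega) (by omega)]
    omega
  · ext v
    constructor
    · rintro ⟨i, h1, h2, rfl⟩
      exact ⟨r + 1 - i, by omega, by omega, rfl⟩
    · rintro ⟨i, h1, h2, rfl⟩
      exact ⟨r + 1 - i, by omega, by omega, by simp only; congr 1; omega⟩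

end Pool.Agent.X55.Itm
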